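import Pool.Agent.Q164.RCA.Stmts

open Filter Topology MeasureTheory

namespace Pool.Agent.Q164.RCA.Main

lemma card_sh {B : Type} [AddCommGroup B] (m : ℤ) (c : ℤ →₀ B) :
    (sh m c).support.card = c.support.card := by
  classical
  unfold sh
  have hinj : Function.Injective (fun k : ℤ => k + m) := add_left_injective m
  rw [Finsupp.mapDomain_support_of_injective hinj, Finset.card_image_of_injective _ hinj]

lemma iter_sh {B : Type} [AddCommGroup B] (Φ : (ℤ →₀ B) ≃+ (ℤ →₀ B))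
    (hsh : ∀ m c, Φ (sh m c) = sh m (Φ c)) (t : ℕ) (m : ℤ) (c : ℤ →₀ B) :
    Φ^[t] (sh m c) = sh m (Φ^[t] c) := by
  induction t generalizing c with
  | zero => rfl
  | succ t ih => rw [Function.iterate_succ_apply, Function.iterate_succ_apply, hsh, ih]

lemma rank_bdd {B : Type} [AddCommGroup B] (Φ : (ℤ →₀ B) ≃+ (ℤ →₀ B))
    (hsh : ∀ m c, Φ (sh m c) = sh m (Φ c)) (y : ℤ →₀ B) (s : ℕ) (m : ℤ) (hs : 1 ≤ s)
    (h : Φ^[s] y = sh m y) : ∃ M : ℕ, ∀ t : ℕ, (Φ^[t] y).support.card ≤ M := by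
  have hper : ∀ t : ℕ, (Φ^[t + s] y).support.card = (Φ^[t] y).support.card := by
    intro t
    rw [Function.iterate_add_apply, h, iter_sh Φ hsh, card_sh]
  refine ⟨∑ i ∈ Finset.range s, (Φ^[i] y).support.card, ?_⟩
  intro t
  induction t using Nat.strong_induction_on with
  | _ t ih =>
    by_cases hts : t < s
    · exact Finset.single_le_sum (f := fun i => (Φ^[i] y).support.card)
        (fun i _ => Nat.zero_le _) (Finset.mem_range.2 hts)
    · push Not at hts
      have := ih (t - s) (by omega)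
      rw [← hper (t - s), Nat.sub_add_cancel hts] at this
      exact this

theorem main (hGroup : TaskGroup) (hDens : TaskDens) (hDual : TaskDualEquiv) (hLam : TaskLam)
    (hBern : TaskBern) (hStone : TaskStone) (hConv : TaskConv) (hMap : TaskMap) : TaskMain := by
  intro A _ _ _ _ _ _ F hF hbij hdens μ hμ hmix
  obtain ⟨Φ, hΦ, hsh⟩ := hDual A F hF hbij
  have hmap := hMap A F hF Φ hΦ
  obtain ⟨hlp, hl0⟩ := hLam A
  apply hStone A (fun t => μ.map (F^[t])) (lam A) (fun t => (hmap μ hμ t).1) hlp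
  intro c
  by_cases hc : c = 0
  · subst hc
    have h1 : ∀ (ν : Measure (ℤ → A)), IsProbabilityMeasure ν →
        ∫ x, ev (0 : ℤ →₀ AddChar A ℂ) x ∂ν = 1 := by
      intro ν hν
      simp [ev]
    have h2 : (fun t : ℕ => ∫ x, ev (0 : ℤ →₀ AddChar A ℂ) x ∂(μ.map (F^[t]))) = fun _ => 1 := by
      funext t
      exact h1 _ (hmap μ hμ t).1
    rw [h2, h1 _ hlp]
    exact tendsto_const_nhds
  · rw [hl0 c hc]
    by_contra hnot
    have h3 : ∃ ε : ℝ, 0 < ε ∧ ∃ᶠ t : ℕ in atTop, ε ≤ ‖∫ x, ev c x ∂(μ.map (F^[t]))‖ := by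
      by_contra hcon
      push Not at hcon
      apply hnot
      rw [tendsto_zero_iff_norm_tendsto_zero]
      rw [Metric.tendsto_nhds]
      intro ε hε
      have := hcon ε hε
      filter_upwards [this] with t ht
      rw [Real.dist_eq, sub_zero, abs_of_nonneg (norm_nonneg _)]
      exact ht
    obtain ⟨ε, hε, hfr⟩ := h3
    obtain ⟨R, hR⟩ := hmix ε hε
    have hinf : {t : ℕ | (Φ^[t] c).support.card ≤ R}.Infinite := by
      rw [← Nat.frequently_atTop_iff_infinite]
      refine hfr.mono ?_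
      intro t ht
      by_contra hlt
      push Not at hlt
      have h4 := hR (Φ^[t] c) hlt
      rw [(hmap μ hμ t).2 c] at ht
      exact absurd h4 (not_lt.2 ht)
    obtain ⟨y, s, m, hy, hs, hys⟩ := hGroup (AddChar A ℂ) Φ hsh c hc R hinf
    obtain ⟨M, hM⟩ := rank_bdd Φ hsh y s m hs hys
    obtain ⟨μ', hμ', hB⟩ := hBern A
    have hnorm : ∀ c : ℤ →₀ AddChar A ℂ, ‖∫ x, ev c x ∂μ'‖ = (1 / 2 : ℝ) ^ c.support.card := by
      intro c
      rw [hB c, norm_pow]
      norm_num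
    have hmix' : HarmonicallyMixing μ' := by
      intro ε hε
      obtain ⟨R, hR⟩ := exists_pow_lt_of_lt_one hε (by norm_num : (1 / 2 : ℝ) < 1)
      refine ⟨R, fun c hc => ?_⟩
      rw [hnorm c]
      refine lt_of_le_of_lt ?_ hR
      exact pow_le_pow_of_le_one (by norm_num) (by norm_num) hc.le
    obtain ⟨D, hD, hDc⟩ := hdens μ' hμ' hmix'
    have hDinf := hDens D hD
    have hne : (atTop ⊓ 𝓟 D : Filter ℕ).NeBot := by
      rw [← Filter.frequently_mem_iff_neBot] 
      exact (Nat.frequently_atTop_iff_infinite).2 hDinf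
    have h5 := hConv A (fun t => μ'.map (F^[t])) (lam A) (atTop ⊓ 𝓟 D)
      (fun t => (hmap μ' hμ' t).1) hlp hDc y
    rw [hl0 y hy] at h5
    have h6 := h5.norm
    rw [norm_zero] at h6
    have h7 : ∀ t : ℕ, (1 / 2 : ℝ) ^ M ≤ ‖∫ x, ev y x ∂(μ'.map (F^[t]))‖ := by
      intro t
      rw [(hmap μ' hμ' t).2 y, hnorm]
      exact pow_le_pow_of_le_one (by norm_num) (by norm_num) (hM t)
    have h8 : (1 / 2 : ℝ) ^ M ≤ 0 := ge_of_tendsto' h6 h7
    have h9 : (0 : ℝ) < (1 / 2 : ℝ) ^ M := by positivity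
    linarith

end Pool.Agent.Q164.RCA.Main
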