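import Mathlib

/-!
# MP_b3f678_an, Q1 (answer NO): a reversible abelian CA that randomizes in density randomizes strongly

Blueprint of helper164. Every `TaskXxx` is a statement; the tasks named in the doc string may be used
as hypotheses. Idea: if the ranks of `χ ∘ F^t` do not tend to infinity, then (duality, p-torsion) a
matrix `G` over the Laurent polynomials `F_p[u, u⁻¹]`, invertible, has `G^t x` = sum of `R` terms
`u^m a` for infinitely many `t`; an eigenvalue `lam` gives `lam^t = Σ_j β_j u^(n_j)`, `β_j ∈ L`, `L`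
finite over `F_p(u)`. With `R` minimal, Frobenius descent (`TaskElim`) and finiteness give
`β_j u^(N_j) = lam^T β_j^P`, so `lam^s u^m = g(w)^(P-1)`, `g` a Laurent polynomial in `w`,
`w^(P-1) = u`; `lam` is a unit, so `g` is a monomial and `lam^s = u^m`: a soliton of the dual.
-/

open Filter Topology MeasureTheory Polynomial

namespace Pool.Agent.Q164.RCA

/-! ### Part 1: fields of characteristic p -/

/-- the times `t` for which `lam^t` is a sum `Σ_j β_j u^(n_j)` -/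
def Sol {L : Type} [Field L] (u lam : L) {R : ℕ} (β : Fin R → L) : Set ℕ :=
  {t | ∃ n : Fin R → ℤ, lam ^ t = ∑ j, β j * u ^ (n j)}

/-- `L` is a vector space over the subfield `L^p` (range of frobenius); `1`, `z` are independent, take
a linear functional with values `0`, `1` and compose it with the inverse of Frobenius. -/
def TaskFunc : Prop := ∀ (p : ℕ) [Fact p.Prime] (L : Type) [Field L] [CharP L p] (z : L),
  (∀ y : L, y ^ p ≠ z) →
    ∃ c : L →+ L, (∀ a y : L, c (a ^ p * y) = a * c y) ∧ c 1 = 0 ∧ c z = 1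

/-- same with one element. -/
def TaskFuncOne : Prop := ∀ (p : ℕ) [Fact p.Prime] (L : Type) [Field L] [CharP L p],
  ∃ c : L →+ L, (∀ a y : L, c (a ^ p * y) = a * c y) ∧ c 1 = 1

/-- Uses TaskFunc, TaskFuncOne. Apply `c` of TaskFunc (for `z j₀`) to the relation: `0 = Σ c(z_j) u^(n_j)`
with `c(z_{j₀}) = 1`; apply `c'` of TaskFuncOne: `lam^t = Σ c'(z_j) u^(n_j)`; eliminate `u^(n_{j₀})`:
`lam^t = Σ_{j ≠ j₀} (c'(z_j) - c'(z_{j₀}) c(z_j)) u^(n_j)`. Reindex with `Fin.succAbove`. -/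
def TaskReduce : Prop := ∀ (p : ℕ) [Fact p.Prime] (L : Type) [Field L] [CharP L p] (u lam : L),
  ∀ (R : ℕ) (z : Fin (R + 1) → L) (j₀ : Fin (R + 1)), (∀ y : L, y ^ p ≠ z j₀) →
  {t : ℕ | ∃ n : Fin (R + 1) → ℤ, (lam ^ t) ^ p = ∑ j, z j * (u ^ (n j)) ^ p}.Infinite →
  ∃ β : Fin R → L, (Sol u lam β).Infinite

/-- Pigeonhole on the residues of `t` and of the `n_j` mod `p` (no p-th roots here):
`t = p t' + r`, `n_j = p n_j' + r'_j`. -/
def TaskResid : Prop := ∀ (p : ℕ) [Fact p.Prime] (L : Type) [Field L] [CharP L p] (u lam : L),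
  u ≠ 0 → lam ≠ 0 → ∀ (R : ℕ) (β : Fin R → L), (Sol u lam β).Infinite →
  ∃ (r : ℕ) (r' : Fin R → ℕ), r < p ∧ (∀ j, r' j < p) ∧
    {t : ℕ | ∃ n : Fin R → ℤ, (lam ^ t) ^ p =
      ∑ j, (β j * u ^ (r' j) * (lam ^ r)⁻¹) * (u ^ (n j)) ^ p}.Infinite

/-- Uses TaskReduce, TaskResid. With `R` minimal all `β_j u^(r'_j) lam^(-r)` are p-th powers, and
Frobenius is injective. -/
def TaskElim : Prop := ∀ (p : ℕ) [Fact p.Prime] (L : Type) [Field L] [CharP L p] (u lam : L),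
  u ≠ 0 → lam ≠ 0 → ∀ (R : ℕ) (β : Fin R → L), (Sol u lam β).Infinite →
  (∀ R' < R, ∀ β' : Fin R' → L, ¬ (Sol u lam β').Infinite) →
  ∃ (r : ℕ) (r' : Fin R → ℕ) (β' : Fin R → L), r < p ∧ (∀ j, r' j < p) ∧
    (∀ j, β j * u ^ (r' j) = lam ^ r * (β' j) ^ p) ∧ (Sol u lam β').Infinite

/-- Uses TaskElim: iterate (choice). -/
def TaskIter : Prop := ∀ (p : ℕ) [Fact p.Prime] (L : Type) [Field L] [CharP L p] (u lam : L),
  u ≠ 0 → lam ≠ 0 → ∀ (R : ℕ) (β : Fin R → L), (Sol u lam β).Infinite →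
  (∀ R' < R, ∀ β' : Fin R' → L, ¬ (Sol u lam β').Infinite) →
  ∃ b : ℕ → Fin R → L, b 0 = β ∧ ∀ k, (Sol u lam (b k)).Infinite ∧
    ∃ (r : ℕ) (r' : Fin R → ℕ), r < p ∧ (∀ j, r' j < p) ∧
      ∀ j, b k j * u ^ (r' j) = lam ^ r * (b (k + 1) j) ^ p

/-- Compose `d` steps (induction on `d`; `r' + p N < p^(d+1)`). -/
def TaskChain : Prop := ∀ (p : ℕ) [Fact p.Prime] (L : Type) [Field L] (u lam : L) (R : ℕ)
  (b : ℕ → Fin R → L),
  (∀ k, ∃ (r : ℕ) (r' : Fin R → ℕ), r < p ∧ (∀ j, r' j < p) ∧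
      ∀ j, b k j * u ^ (r' j) = lam ^ r * (b (k + 1) j) ^ p) →
  ∀ k d, ∃ (T : ℕ) (N : Fin R → ℕ), T < p ^ d ∧ (∀ j, N j < p ^ d) ∧
    ∀ j, b k j * u ^ (N j) = lam ^ T * (b (k + d) j) ^ (p ^ d)

/-- the field `F_p(u)` -/
abbrev K (p : ℕ) [Fact p.Prime] : Type := RatFunc (ZMod p)

/-- elements of `F_p(u)` regular at infinity -/
def Ainf (p : ℕ) [Fact p.Prime] : Subring (K p) where
  carrier := {f | f = 0 ∨ RatFunc.intDegree f ≤ 0}
  mul_mem' := by
    rintro a b ha hb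
    by_cases h0 : a = 0
    · left; simp [h0]
    by_cases h1 : b = 0
    · left; simp [h1]
    right
    rw [RatFunc.intDegree_mul h0 h1]
    rcases ha with ha | ha
    · exact absurd ha h0
    rcases hb with hb | hb
    · exact absurd hb h1
    omega
  one_mem' := by right; simp
  add_mem' := by
    rintro a b ha hb
    by_cases h2 : a + b = 0
    · left; exact h2
    by_cases h1 : b = 0
    · subst h1; simpa using ha
    rcases ha with ha | ha
    · subst ha; simpa using hb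
    rcases hb with hb | hb
    · exact absurd hb h1
    right
    exact le_trans (RatFunc.intDegree_add_le h1 h2) (max_le ha hb)
  zero_mem' := by left; rfl
  neg_mem' := by
    rintro a ha
    rcases ha with ha | ha
    · left; simp [ha]
    · right; simpa [RatFunc.intDegree_neg] using ha

/-- `Ainf` is integrally closed in `F_p(u)` (it is a valuation ring: `f` or `f⁻¹` is in it). -/
def TaskAinf : Prop := ∀ (p : ℕ) [Fact p.Prime] (f : K p), IsIntegral (Ainf p) f → f ∈ Ainf p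

/-- the minimal polynomial of an element integral over `F_p[X]` has coefficients in `F_p[X]`
(`minpoly.isIntegrallyClosed_eq_field_fractions`). -/
def TaskMinX : Prop := ∀ (p : ℕ) [Fact p.Prime] (L : Type) [Field L] [Algebra (K p) L] (z : L),
  IsIntegral (K p) z →
  (∃ f : (ZMod p)[X][X], f.Monic ∧ Polynomial.eval₂ ((algebraMap (K p) L).comp
      (algebraMap (ZMod p)[X] (K p))) z f = 0) →
  ∀ i, ∃ g : (ZMod p)[X], (minpoly (K p) z).coeff i = algebraMap (ZMod p)[X] (K p) g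

/-- Uses TaskAinf. If `u^(-c) z` is integral over `Ainf`, then the coefficients of the minimal
polynomial of `z` have `intDegree ≤ c * d`, `d` its degree. -/
def TaskMinInf : Prop := ∀ (p : ℕ) [Fact p.Prime] (L : Type) [Field L] [Algebra (K p) L] (z : L)
  (c : ℕ), IsIntegral (K p) z →
  (∃ f : (Ainf p)[X], f.Monic ∧ Polynomial.eval₂ ((algebraMap (K p) L).comp (Ainf p).subtype)
      (algebraMap (K p) L (RatFunc.X ^ (-(c : ℤ))) * z) f = 0) →
  ∀ i, (minpoly (K p) z).coeff i ≠ 0 →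
    RatFunc.intDegree ((minpoly (K p) z).coeff i) ≤ c * (minpoly (K p) z).natDegree

/-- integral over `F_p[X]` -/
def IntX (p : ℕ) [Fact p.Prime] {L : Type} [Field L] [Algebra (K p) L] (z : L) : Prop :=
  ((algebraMap (K p) L).comp (algebraMap (ZMod p)[X] (K p))).IsIntegralElem z

/-- integral over `Ainf` -/
def IntInf (p : ℕ) [Fact p.Prime] {L : Type} [Field L] [Algebra (K p) L] (z : L) : Prop :=
  ((algebraMap (K p) L).comp (Ainf p).subtype).IsIntegralElem z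

/-- Uses TaskMinX, TaskMinInf. Finitely many minimal polynomials, each with finitely many roots. -/
def TaskFinInt : Prop := ∀ (p : ℕ) [Fact p.Prime] (L : Type) [Field L] [Algebra (K p) L]
  [FiniteDimensional (K p) L] (c : ℕ),
  {z : L | IntX p z ∧ IntInf p (algebraMap (K p) L (RatFunc.X ^ (-(c : ℤ))) * z)}.Finite

/-- common denominators (the minimal polynomial over `K`, multiplied) -/
def TaskDen : Prop := ∀ (p : ℕ) [Fact p.Prime] (L : Type) [Field L] [Algebra (K p) L]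
  [FiniteDimensional (K p) L] (z : L), ∃ D : (ZMod p)[X], D ≠ 0 ∧
    IntX p (algebraMap (K p) L (algebraMap (ZMod p)[X] (K p) D) * z)

/-- the same at infinity -/
def TaskDenInf : Prop := ∀ (p : ℕ) [Fact p.Prime] (L : Type) [Field L] [Algebra (K p) L]
  [FiniteDimensional (K p) L] (z : L), ∃ c₀ : ℕ, ∀ c ≥ c₀,
    IntInf p (algebraMap (K p) L (RatFunc.X ^ (-(c : ℤ))) * z)

/-- Uses TaskFinInt, TaskDen, TaskDenInf. `z^q = b u^N lam^(-T)`, `q = p^d`. With `D` a common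
denominator of `b` and `lam⁻¹`: `(D² z)^q = (D b) (D lam⁻¹)^T D^(2q-1-T) u^N` is integral, so `D² z` is;
at infinity `(u^(-(2c+1)) z)^q = (u^(-c) b) (u^(-c) lam⁻¹)^T u^(c+cT+N-(2c+1)q)`, exponent `≤ 0`. -/
def TaskFinite : Prop := ∀ (p : ℕ) [Fact p.Prime] (L : Type) [Field L] [Algebra (K p) L]
  [FiniteDimensional (K p) L] (b lam : L), lam ≠ 0 →
  {z : L | ∃ d T N : ℕ, T < p ^ d ∧ N < p ^ d ∧
    b * (algebraMap (K p) L RatFunc.X) ^ N = lam ^ T * z ^ (p ^ d)}.Finite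

/-- Uses TaskIter, TaskChain, TaskFinite. Take `R` minimal with an infinite `Sol`, iterate, two equal
`b k = b (k + d)`, `d ≥ 1` (finitely many values of each `b k j` by TaskFinite with `b 0 j`). All `β_j`
are `≠ 0` by minimality. -/
def TaskCycle : Prop := ∀ (p : ℕ) [Fact p.Prime] (L : Type) [Field L] [Algebra (K p) L]
  [FiniteDimensional (K p) L] (lam : L), lam ≠ 0 →
  ∀ (R₀ : ℕ) (β₀ : Fin R₀ → L), (Sol (algebraMap (K p) L RatFunc.X) lam β₀).Infinite →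
  ∃ (R : ℕ) (β : Fin R → L) (d T : ℕ) (N : Fin R → ℕ), 1 ≤ d ∧ (∀ j, β j ≠ 0) ∧
    (Sol (algebraMap (K p) L RatFunc.X) lam β).Infinite ∧
    ∀ j, β j * (algebraMap (K p) L RatFunc.X) ^ (N j) = lam ^ T * (β j) ^ (p ^ d)

/-- the constants: elements algebraic over `F_p` -/
def Cst (p : ℕ) [Fact p.Prime] (W : Type) [Field W] [Algebra (ZMod p) W] : Subalgebra (ZMod p) W :=
  integralClosure (ZMod p) W

/-- `β_j / β_i = ζ w^(N_j - N_i)` where `w^(P-1) = u`, `ζ^(P-1) = 1`; hence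
`lam^t / β_0 = g = Σ_j ζ_j w^(..)` and `g^(P-1) = lam^s u^m`. Here `W` is an algebraically closed field
(only a root `w` of `w^(P-1) = u` is needed, it is given). -/
def TaskMono : Prop := ∀ (p : ℕ) [Fact p.Prime] (W : Type) [Field W] [Algebra (ZMod p) W]
  (u lam w : W), u ≠ 0 → lam ≠ 0 → ∀ (P : ℕ), 2 ≤ P → w ^ (P - 1) = u →
  ∀ (R : ℕ) (β : Fin R → W) (T : ℕ) (N : Fin R → ℕ), (∀ j, β j ≠ 0) →
  (∀ j, β j * u ^ (N j) = lam ^ T * (β j) ^ P) →
  ∀ t ∈ Sol u lam β, 1 ≤ t → ∃ (s : ℕ) (m : ℤ) (g : W), 1 ≤ s ∧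
    g ∈ Algebra.adjoin (Cst p W) ({w, w⁻¹} : Set W) ∧ g ^ (P - 1) = lam ^ s * u ^ m

/-- `w` transcendental over `F_p`, `g` a Laurent polynomial in `w` over the constants whose inverse is
integral over the Laurent polynomials: then `g` is a monomial. (`k[w, w⁻¹]` is integrally closed, its
units are `c w^m`; or: `g = w^(-a) h(w)`, if `h` has a root `r ≠ 0` in the constants (embed them in an
algebraic closure) evaluate.) One may assume that `W` is algebraically closed. -/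
def TaskUnit : Prop := ∀ (p : ℕ) [Fact p.Prime] (W : Type) [Field W] [Algebra (ZMod p) W]
  [IsAlgClosed W] (w : W), Transcendental (ZMod p) w →
  ∀ g h : W, g ∈ Algebra.adjoin (Cst p W) ({w, w⁻¹} : Set W) → g * h = 1 →
  IsIntegral (Algebra.adjoin (Cst p W) ({w, w⁻¹} : Set W)) h →
  ∃ (c : W) (m : ℤ), c ∈ Cst p W ∧ c ≠ 0 ∧ g = c * w ^ m

/-- a nonzero constant is a root of unity (finite field) -/
def TaskRoot : Prop := ∀ (p : ℕ) [Fact p.Prime] (W : Type) [Field W] [Algebra (ZMod p) W] (c : W),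
  c ∈ Cst p W → c ≠ 0 → ∃ e : ℕ, 1 ≤ e ∧ c ^ e = 1

/-- Uses TaskCycle, TaskMono, TaskUnit, TaskRoot. `W = AlgebraicClosure L`; `lam⁻¹` integral over
`F_p[u, u⁻¹]`. `g^(P-1) = lam^s u^m` has an integral inverse, so `g` has (`g⁻¹` integral as a root),
`g = c w^m'`, `lam^s = c^(P-1) u^(m'-m)`, take the power `e`. -/
def TaskFieldMain : Prop := ∀ (p : ℕ) [Fact p.Prime] (L : Type) [Field L] [Algebra (K p) L]
  [FiniteDimensional (K p) L] (lam : L), lam ≠ 0 →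
  (∃ (N : ℕ), IntX p ((algebraMap (K p) L RatFunc.X) ^ N * lam⁻¹)) →
  ∀ (R₀ : ℕ) (β₀ : Fin R₀ → L), (Sol (algebraMap (K p) L RatFunc.X) lam β₀).Infinite →
  ∃ (s : ℕ) (m : ℤ), 1 ≤ s ∧ lam ^ s = (algebraMap (K p) L RatFunc.X) ^ m

/-! ### Part 2: matrices -/

/-- Laurent polynomials in `F_p(u)` -/
def IsLau (p : ℕ) [Fact p.Prime] (z : K p) : Prop :=
  ∃ (N : ℕ) (f : (ZMod p)[X]), RatFunc.X ^ N * z = algebraMap (ZMod p)[X] (K p) f

/-- `I = {f : f(G) x = 0}` is a proper nonzero ideal of `K[X]`, `M ⊇ I` maximal, `L = K[X]/M`, `lam` the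
class of `X`; `f(G) x ↦ f mod M` is well defined on the span of the `G^t x`, extend it linearly. -/
def TaskEigen : Prop := ∀ (p : ℕ) [Fact p.Prime] (n : ℕ) (G : Matrix (Fin n) (Fin n) (K p))
  (x : Fin n → K p), x ≠ 0 →
  ∃ (L : Type) (_ : Field L) (_ : Algebra (K p) L) (_ : FiniteDimensional (K p) L) (lam : L)
    (l : (Fin n → K p) →ₗ[K p] L), (∀ t : ℕ, l ((G ^ t).mulVec x) = lam ^ t) ∧
    Polynomial.aeval lam G.charpoly = 0

/-- `G H = 1`, entries of `H` Laurent polynomials, `lam` a root of the characteristic polynomial of `G`: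
`lam ≠ 0` and `u^N lam⁻¹` is integral over `F_p[X]` (`lam⁻¹` is an eigenvalue of `H`). -/
def TaskInt : Prop := ∀ (p : ℕ) [Fact p.Prime] (n : ℕ) (G H : Matrix (Fin n) (Fin n) (K p)),
  G * H = 1 → (∀ i j, IsLau p (H i j)) →
  ∀ (L : Type) [Field L] [Algebra (K p) L] (lam : L), Polynomial.aeval lam G.charpoly = 0 →
  lam ≠ 0 ∧ ∃ N : ℕ, IntX p ((algebraMap (K p) L RatFunc.X) ^ N * lam⁻¹)

/-- `lam^s = u^m`: `det (G^s - u^m) = 0` over `L`, so over `K`; clear denominators. -/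
def TaskBack : Prop := ∀ (p : ℕ) [Fact p.Prime] (n : ℕ) (G : Matrix (Fin n) (Fin n) (K p))
  (L : Type) [Field L] [Algebra (K p) L] (lam : L), Polynomial.aeval lam G.charpoly = 0 →
  ∀ (s : ℕ) (m : ℤ), lam ^ s = (algebraMap (K p) L RatFunc.X) ^ m →
  ∃ y : Fin n → K p, y ≠ 0 ∧ (∀ i, IsLau p (y i)) ∧
    (G ^ s).mulVec y = (RatFunc.X : K p) ^ m • y

/-- Uses TaskFieldMain, TaskEigen, TaskInt, TaskBack. -/
def TaskMatMain : Prop := ∀ (p : ℕ) [Fact p.Prime] (n : ℕ) (G H : Matrix (Fin n) (Fin n) (K p)),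
  G * H = 1 → (∀ i j, IsLau p (H i j)) → ∀ x : Fin n → K p, x ≠ 0 →
  ∀ (R : ℕ) (a : Fin R → Fin n → K p),
  {t : ℕ | ∃ m : Fin R → ℤ, (G ^ t).mulVec x = ∑ j, (RatFunc.X : K p) ^ (m j) • a j}.Infinite →
  ∃ y : Fin n → K p, y ≠ 0 ∧ (∀ i, IsLau p (y i)) ∧ ∃ (s : ℕ) (m : ℤ), 1 ≤ s ∧
    (G ^ s).mulVec y = (RatFunc.X : K p) ^ m • y

/-! ### Part 3: finitely supported configurations -/

/-- shift of finitely supported configurations -/
noncomputable def sh {B : Type} [AddCommGroup B] (m : ℤ) (c : ℤ →₀ B) : ℤ →₀ B :=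
  c.mapDomain (fun k => k + m)

/-- `c ↦ (Σ_k c_k(i) u^k)_i` -/
noncomputable def emb (p : ℕ) [Fact p.Prime] {n : ℕ} (c : ℤ →₀ (Fin n → ZMod p)) : Fin n → K p :=
  fun i => c.sum fun k v => algebraMap (ZMod p) (K p) (v i) * (RatFunc.X : K p) ^ k

/-- `emb` is injective. -/
def TaskEmbInj : Prop := ∀ (p : ℕ) [Fact p.Prime] (n : ℕ) (c : ℤ →₀ (Fin n → ZMod p)),
  emb p c = 0 → c = 0

/-- `emb` is onto the Laurent vectors. -/
def TaskEmbSurj : Prop := ∀ (p : ℕ) [Fact p.Prime] (n : ℕ) (y : Fin n → K p),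
  (∀ i, IsLau p (y i)) → ∃ c : ℤ →₀ (Fin n → ZMod p), emb p c = y

/-- additivity, shift -/
def TaskEmbSh : Prop := ∀ (p : ℕ) [Fact p.Prime] (n : ℕ),
  (∀ c c' : ℤ →₀ (Fin n → ZMod p), emb p (c + c') = emb p c + emb p c') ∧
  (∀ (m : ℤ) (c : ℤ →₀ (Fin n → ZMod p)), emb p (sh m c) = (RatFunc.X : K p) ^ m • emb p c) ∧
  (∀ (m : ℤ) (v : Fin n → ZMod p), emb p (Finsupp.single m v) =
    (RatFunc.X : K p) ^ m • (fun i => algebraMap (ZMod p) (K p) (v i)))

/-- Uses TaskEmbSh. A shift commuting additive map is a matrix of Laurent polynomials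
(`G i j = emb (Φ (single 0 e_j)) i`). -/
def TaskRep : Prop := ∀ (p : ℕ) [Fact p.Prime] (n : ℕ)
  (Φ : (ℤ →₀ (Fin n → ZMod p)) →+ (ℤ →₀ (Fin n → ZMod p))), (∀ m c, Φ (sh m c) = sh m (Φ c)) →
  ∃ G : Matrix (Fin n) (Fin n) (K p), (∀ i j, IsLau p (G i j)) ∧
    ∀ c, emb p (Φ c) = G.mulVec (emb p c)

/-- Pigeonhole: infinitely many `t` with at most `R` cells: a fixed tuple of values (finite group). -/
def TaskPig : Prop := ∀ (B : Type) [AddCommGroup B] [Finite B] (f : ℕ → (ℤ →₀ B)) (R : ℕ),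
  {t : ℕ | (f t).support.card ≤ R}.Infinite →
  ∃ (R' : ℕ) (a : Fin R' → B),
    {t : ℕ | ∃ m : Fin R' → ℤ, f t = ∑ j, Finsupp.single (m j) (a j)}.Infinite

/-- Uses TaskMatMain, TaskEmbInj, TaskEmbSurj, TaskEmbSh, TaskRep, TaskPig. -/
def TaskVec : Prop := ∀ (p : ℕ) [Fact p.Prime] (n : ℕ)
  (Φ : (ℤ →₀ (Fin n → ZMod p)) ≃+ (ℤ →₀ (Fin n → ZMod p))), (∀ m c, Φ (sh m c) = sh m (Φ c)) →
  ∀ c, c ≠ 0 → ∀ R : ℕ, {t : ℕ | (Φ^[t] c).support.card ≤ R}.Infinite →
  ∃ (y : ℤ →₀ (Fin n → ZMod p)) (s : ℕ) (m : ℤ), y ≠ 0 ∧ 1 ≤ s ∧ Φ^[s] y = sh m y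

/-- Uses TaskVec. General finite abelian group: multiply `c` by an integer to get a nonzero element of
prime order `p`; restrict to the configurations with values in `B[p] ≃ (Fin n → ZMod p)`. -/
def TaskGroup : Prop := ∀ (B : Type) [AddCommGroup B] [Finite B]
  (Φ : (ℤ →₀ B) ≃+ (ℤ →₀ B)), (∀ m c, Φ (sh m c) = sh m (Φ c)) →
  ∀ c, c ≠ 0 → ∀ R : ℕ, {t : ℕ | (Φ^[t] c).support.card ≤ R}.Infinite →
  ∃ (y : ℤ →₀ B) (s : ℕ) (m : ℤ), y ≠ 0 ∧ 1 ≤ s ∧ Φ^[s] y = sh m y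

/-! ### Part 4: the cellular automata (these are the definitions of the final theorem) -/

section CA
variable {A : Type} [AddCommGroup A] [Fintype A] [TopologicalSpace A] [DiscreteTopology A]
  [MeasurableSpace A] [MeasurableSingletonClass A]

/-- the shift -/
def shift (x : ℤ → A) : ℤ → A := fun i => x (i + 1)

/-- abelian cellular automata -/
structure IsAbelianCA (F : (ℤ → A) → (ℤ → A)) : Prop where
  cont : Continuous F
  comm : ∀ x, F (shift x) = shift (F x)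
  add : ∀ x y, F (x + y) = F x + F y

/-- the value at `x` of the character with local characters `c k` -/
noncomputable def ev (c : ℤ →₀ AddChar A ℂ) (x : ℤ → A) : ℂ := ∏ k ∈ c.support, c k (x k)

/-- harmonically mixing measures -/
def HarmonicallyMixing (μ : Measure (ℤ → A)) : Prop :=
  ∀ ε : ℝ, 0 < ε → ∃ R : ℕ, ∀ c : ℤ →₀ AddChar A ℂ, R < c.support.card → ‖∫ x, ev c x ∂μ‖ < ε

/-- the uniform Bernoulli measure -/
noncomputable def lam (A : Type) [AddCommGroup A] [Fintype A] [MeasurableSpace A] :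
    Measure (ℤ → A) := Measure.infinitePi fun _ => (PMF.uniformOfFintype A).toMeasure

/-- `F^t μ → lam` along the filter `l` -/
def ConvTo (F : (ℤ → A) → (ℤ → A)) (μ : Measure (ℤ → A)) (l : Filter ℕ) : Prop :=
  ∀ f : C(ℤ → A, ℝ), Tendsto (fun t : ℕ => ∫ x, f x ∂(μ.map (F^[t]))) l (𝓝 (∫ x, f x ∂(lam A)))

/-- lower density one -/
def DensityOne (D : Set ℕ) : Prop :=
  liminf (fun n : ℕ => (Nat.card {k : ℕ // k ∈ D ∧ k ≤ n} : ℝ) / n) atTop = 1

/-- strong randomization -/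
def StronglyRandomizing (F : (ℤ → A) → (ℤ → A)) : Prop :=
  ∀ μ : Measure (ℤ → A), IsProbabilityMeasure μ → HarmonicallyMixing μ → ConvTo F μ atTop

/-- randomization in density -/
def RandomizingInDensity (F : (ℤ → A) → (ℤ → A)) : Prop :=
  ∀ μ : Measure (ℤ → A), IsProbabilityMeasure μ → HarmonicallyMixing μ →
    ∃ D : Set ℕ, DensityOne D ∧ ConvTo F μ (atTop ⊓ 𝓟 D)

end CA

/-- a set of lower density one is infinite -/
def TaskDens : Prop := ∀ D : Set ℕ, DensityOne D → D.Infinite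

/-- local rule: the set of `x` with `(F x) 0 = 0` is a neighbourhood of `0`, `F x 0` depends on a window
only; `φ i a = F (Pi.single i a) 0`. -/
def TaskLocal : Prop := ∀ (A : Type) [AddCommGroup A] [Fintype A] [TopologicalSpace A]
  [DiscreteTopology A] (F : (ℤ → A) → (ℤ → A)), IsAbelianCA F →
  ∃ (r : ℕ) (φ : ℤ → A →+ A), ∀ x k, F x k = ∑ i ∈ Finset.Icc (-(r : ℤ)) r, φ i (x (k + i))

/-- the inverse of a bijective abelian CA is one (compactness) -/
def TaskInvCA : Prop := ∀ (A : Type) [AddCommGroup A] [Fintype A] [TopologicalSpace A]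
  [DiscreteTopology A] (F : (ℤ → A) → (ℤ → A)), IsAbelianCA F → Function.Bijective F →
  ∃ F' : (ℤ → A) → (ℤ → A), IsAbelianCA F' ∧ (∀ x, F' (F x) = x) ∧ ∀ x, F (F' x) = x

/-- `ev` is additive in `c`, and injective, and shifts. -/
def TaskEv : Prop := ∀ (A : Type) [AddCommGroup A] [Fintype A],
  (∀ (c c' : ℤ →₀ AddChar A ℂ) (x : ℤ → A), ev (c + c') x = ev c x * ev c' x) ∧
  (∀ c c' : ℤ →₀ AddChar A ℂ, (∀ x : ℤ → A, ev c x = ev c' x) → c = c') ∧
  (∀ (c : ℤ →₀ AddChar A ℂ) (x : ℤ → A), ev (sh 1 c) x = ev c (shift x))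

/-- Uses TaskLocal, TaskEv. The dual map `Φ c = Σ_k Σ_i single (k + i) (c_k ∘ φ_i)`. -/
def TaskDual : Prop := ∀ (A : Type) [AddCommGroup A] [Fintype A] [TopologicalSpace A]
  [DiscreteTopology A] (F : (ℤ → A) → (ℤ → A)), IsAbelianCA F →
  ∃ Φ : (ℤ →₀ AddChar A ℂ) →+ (ℤ →₀ AddChar A ℂ), ∀ c x, ev (Φ c) x = ev c (F x)

/-- Uses TaskDual, TaskInvCA, TaskEv. -/
def TaskDualEquiv : Prop := ∀ (A : Type) [AddCommGroup A] [Fintype A] [TopologicalSpace A]
  [DiscreteTopology A] (F : (ℤ → A) → (ℤ → A)), IsAbelianCA F → Function.Bijective F →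
  ∃ Φ : (ℤ →₀ AddChar A ℂ) ≃+ (ℤ →₀ AddChar A ℂ), (∀ c x, ev (Φ c) x = ev c (F x)) ∧
    ∀ m c, Φ (sh m c) = sh m (Φ c)

/-- `∫ ev c d lam = 0` for `c ≠ 0` (orthogonality), `lam` is a probability measure. -/
def TaskLam : Prop := ∀ (A : Type) [AddCommGroup A] [Fintype A] [MeasurableSpace A]
  [MeasurableSingletonClass A], IsProbabilityMeasure (lam A) ∧
  ∀ c : ℤ →₀ AddChar A ℂ, c ≠ 0 → ∫ x, ev c x ∂(lam A) = 0

/-- product of `ν = (1/2) δ_0 + (1/2) uniform`: all Fourier coefficients are `2^(-rank)`. -/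
def TaskBern : Prop := ∀ (A : Type) [AddCommGroup A] [Fintype A] [MeasurableSpace A]
  [MeasurableSingletonClass A], ∃ μ : Measure (ℤ → A), IsProbabilityMeasure μ ∧
  ∀ c : ℤ →₀ AddChar A ℂ, ∫ x, ev c x ∂μ = (1 / 2 : ℂ) ^ c.support.card

/-- Stone-Weierstrass: the span of the `ev c` is dense in `C(ℤ → A, ℂ)`; so convergence of all Fourier
coefficients implies weak convergence (`l` any filter, `ν t` probability measures). -/
def TaskStone : Prop := ∀ (A : Type) [AddCommGroup A] [Fintype A] [TopologicalSpace A]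
  [DiscreteTopology A] [MeasurableSpace A] [MeasurableSingletonClass A]
  (ν : ℕ → Measure (ℤ → A)) (ν₀ : Measure (ℤ → A)), (∀ t, IsProbabilityMeasure (ν t)) →
  IsProbabilityMeasure ν₀ →
  (∀ c : ℤ →₀ AddChar A ℂ, Tendsto (fun t => ∫ x, ev c x ∂(ν t)) atTop (𝓝 (∫ x, ev c x ∂ν₀))) →
  ∀ f : C(ℤ → A, ℝ), Tendsto (fun t => ∫ x, f x ∂(ν t)) atTop (𝓝 (∫ x, f x ∂ν₀))

/-- the converse: real and imaginary parts of `ev c` are continuous. -/
def TaskConv : Prop := ∀ (A : Type) [AddCommGroup A] [Fintype A] [TopologicalSpace A]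
  [DiscreteTopology A] [MeasurableSpace A] [MeasurableSingletonClass A]
  (ν : ℕ → Measure (ℤ → A)) (ν₀ : Measure (ℤ → A)) (l : Filter ℕ),
  (∀ t, IsProbabilityMeasure (ν t)) → IsProbabilityMeasure ν₀ →
  (∀ f : C(ℤ → A, ℝ), Tendsto (fun t => ∫ x, f x ∂(ν t)) l (𝓝 (∫ x, f x ∂ν₀))) →
  ∀ c : ℤ →₀ AddChar A ℂ, Tendsto (fun t => ∫ x, ev c x ∂(ν t)) l (𝓝 (∫ x, ev c x ∂ν₀))

/-- `F^[t]` is measurable, `∫ ev c d(F^t μ) = ∫ ev (Φ^t c) dμ`. -/
def TaskMap : Prop := ∀ (A : Type) [AddCommGroup A] [Fintype A] [TopologicalSpace A]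
  [DiscreteTopology A] [MeasurableSpace A] [MeasurableSingletonClass A]
  (F : (ℤ → A) → (ℤ → A)), IsAbelianCA F →
  ∀ Φ : (ℤ →₀ AddChar A ℂ) → (ℤ →₀ AddChar A ℂ), (∀ c x, ev (Φ c) x = ev c (F x)) →
  ∀ (μ : Measure (ℤ → A)), IsProbabilityMeasure μ → ∀ t : ℕ,
    IsProbabilityMeasure (μ.map (F^[t])) ∧
    ∀ c, ∫ x, ev c x ∂(μ.map (F^[t])) = ∫ x, ev (Φ^[t] c) x ∂μ

/-- Uses TaskGroup, TaskDens, TaskDualEquiv, TaskLam, TaskBern, TaskStone, TaskConv, TaskMap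
(assembly, helper164). -/
def TaskMain : Prop := ∀ (A : Type) [AddCommGroup A] [Fintype A] [TopologicalSpace A]
  [DiscreteTopology A] [MeasurableSpace A] [MeasurableSingletonClass A]
  (F : (ℤ → A) → (ℤ → A)), IsAbelianCA F → Function.Bijective F →
  RandomizingInDensity F → StronglyRandomizing F

end Pool.Agent.Q164.RCA
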