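import Pool.Agent.Q164.RCA.Stmts

open Polynomial

namespace Pool.Agent.Q164.RCA.TaskAinf

theorem inv_intDegree {p : ℕ} [Fact p.Prime] {f : K p} (hf : f ≠ 0) :
    RatFunc.intDegree f⁻¹ = - RatFunc.intDegree f := by
  have h := RatFunc.intDegree_mul (x := f) (y := f⁻¹) hf (inv_ne_zero hf)
  rw [mul_inv_cancel₀ hf, RatFunc.intDegree_one] at h
  linarith

/-- `Ainf` as a valuation subring -/
def V (p : ℕ) [Fact p.Prime] : ValuationSubring (K p) :=
  { Ainf p with
    mem_or_inv_mem' := by
      intro f
      by_cases h0 : f = 0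
      · left; left; exact h0
      by_cases h1 : RatFunc.intDegree f ≤ 0
      · left; right; exact h1
      · right; right
        rw [inv_intDegree h0]
        linarith [not_le.mp h1] }

theorem main : Pool.Agent.Q164.RCA.TaskAinf := by
  intro p _ f hf
  have h : IsIntegral (V p) f := hf
  obtain ⟨y, hy⟩ := IsIntegrallyClosed.isIntegral_iff.mp h
  have : f ∈ V p := by rw [← hy]; exact y.2
  exact this

end Pool.Agent.Q164.RCA.TaskAinf
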