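import Pool.Agent.Q164.RCA.Stmts

set_option autoImplicit false

open Matrix

namespace Pool.Agent.Q164.RCA.TaskBack

open Pool.Agent.Q164.RCA

theorem main : Pool.Agent.Q164.RCA.TaskBack := by
  intro p _ n G L _ _ lam hlam s m hs
  set f : K p →+* L := algebraMap (K p) L with hf
  -- an eigenvector over `L`
  have h1 : ((f.mapMatrix G).charpoly).eval lam = 0 := by
    rw [RingHom.mapMatrix_apply, Matrix.charpoly_map, Polynomial.eval_map]
    rw [Polynomial.aeval_def] at hlam
    exact hlam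
  rw [Matrix.eval_charpoly] at h1
  obtain ⟨v, hv, hv'⟩ := Matrix.exists_mulVec_eq_zero_iff.2 h1
  have h2 : (f.mapMatrix G) *ᵥ v = lam • v := by
    rw [Matrix.sub_mulVec, sub_eq_zero] at hv'
    rw [← hv']
    ext i
    simp [Matrix.scalar_apply, Matrix.mulVec_diagonal]
  have h3 : ∀ s : ℕ, ((f.mapMatrix G) ^ s) *ᵥ v = lam ^ s • v := by
    intro s
    induction s with
    | zero => simp
    | succ s ih =>
      rw [pow_succ', ← Matrix.mulVec_mulVec, ih, Matrix.mulVec_smul, h2, smul_smul, pow_succ]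
  -- the determinant vanishes
  have h4 : (G ^ s - (RatFunc.X : K p) ^ m • (1 : Matrix (Fin n) (Fin n) (K p))).det = 0 := by
    apply f.injective
    rw [RingHom.map_det, map_zero, map_sub, map_pow]
    have h5 : f.mapMatrix ((RatFunc.X : K p) ^ m • (1 : Matrix (Fin n) (Fin n) (K p))) =
        (f RatFunc.X) ^ m • (1 : Matrix (Fin n) (Fin n) L) := by
      ext i j
      simp only [RingHom.mapMatrix_apply, Matrix.map_apply, Matrix.smul_apply, smul_eq_mul, map_mul,
        map_zpow₀, Matrix.one_apply]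
      split_ifs <;> simp
    rw [h5]
    refine Matrix.exists_mulVec_eq_zero_iff.1 ⟨v, hv, ?_⟩
    rw [Matrix.sub_mulVec, h3, Matrix.smul_mulVec, Matrix.one_mulVec, hs, sub_self]
  obtain ⟨y, hy, hy'⟩ := Matrix.exists_mulVec_eq_zero_iff.2 h4
  rw [Matrix.sub_mulVec, Matrix.smul_mulVec, Matrix.one_mulVec, sub_eq_zero] at hy'
  -- clear the denominators
  obtain ⟨b, hb⟩ := IsLocalization.exist_integer_multiples_of_finite
    (nonZeroDivisors (Polynomial (ZMod p))) y
  have hb0 : algebraMap (Polynomial (ZMod p)) (K p) (b : Polynomial (ZMod p)) ≠ 0 := by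
    intro h
    have h6 := (map_eq_zero_iff _ (IsFractionRing.injective (Polynomial (ZMod p)) (K p))).1 h
    exact nonZeroDivisors.ne_zero b.2 h6
  refine ⟨algebraMap (Polynomial (ZMod p)) (K p) (b : Polynomial (ZMod p)) • y,
    smul_ne_zero hb0 hy, fun i => ?_, ?_⟩
  · obtain ⟨g, hg⟩ := hb i
    refine ⟨0, g, ?_⟩
    rw [pow_zero, one_mul, hg, Pi.smul_apply, smul_eq_mul, Algebra.smul_def]
  · rw [Matrix.mulVec_smul, hy', smul_comm]

end Pool.Agent.Q164.RCA.TaskBack
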