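import Pool.Agent.Q164.RCA.Stmts

set_option autoImplicit false

namespace Pool.Agent.Q164.RCA.TaskBern

open MeasureTheory

theorem main : Pool.Agent.Q164.RCA.TaskBern := by
  intro A _ _ _ _
  classical
  set U : Measure A := (PMF.uniformOfFintype A).toMeasure with hU
  haveI : IsProbabilityMeasure U := PMF.toMeasure.isProbabilityMeasure _
  set ν : Measure A := (2⁻¹ : ENNReal) • Measure.dirac (0 : A) + (2⁻¹ : ENNReal) • U with hν
  haveI hνp : IsProbabilityMeasure ν := ⟨by
    rw [hν, Measure.add_apply, Measure.smul_apply, Measure.smul_apply, measure_univ, measure_univ]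
    simp [ENNReal.inv_two_add_inv_two]⟩
  refine ⟨Measure.infinitePi fun _ => ν, inferInstance, ?_⟩
  intro c
  have hint : ∀ ψ : AddChar A ℂ, ψ ≠ 0 → ∫ a, ψ a ∂ν = 1 / 2 := by
    intro ψ hψ
    have hs : ∑ a, ψ a = 0 := AddChar.sum_eq_zero_iff_ne_zero.2 hψ
    haveI h3 : IsFiniteMeasure ((2⁻¹ : ENNReal) • Measure.dirac (0 : A)) := by
      refine ⟨?_⟩
      rw [Measure.smul_apply, measure_univ]
      simp
    haveI h4 : IsFiniteMeasure ((2⁻¹ : ENNReal) • U) := by
      refine ⟨?_⟩
      rw [Measure.smul_apply, measure_univ]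
      simp
    rw [hν, integral_add_measure Integrable.of_finite Integrable.of_finite, integral_smul_measure,
      integral_smul_measure, integral_dirac, hU, PMF.integral_eq_sum]
    simp only [PMF.uniformOfFintype_apply, ← Finset.smul_sum, hs, smul_zero, add_zero,
      AddChar.map_zero_eq_one]
    simp
  have h1 : ∫ x, ev c x ∂(Measure.infinitePi fun _ : ℤ => ν) =
      ∏ k : c.support, ∫ a, (c (k : ℤ)) a ∂ν := by
    have h2 := integral_restrict_infinitePi (μ := fun _ : ℤ => ν) (s := c.support)
      (f := fun y : (i : c.support) → A => ∏ k : c.support, (c (k : ℤ)) (y k))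
      (Measurable.of_discrete.aestronglyMeasurable)
    rw [integral_fintype_prod_eq_prod (f := fun (k : c.support) (a : A) => (c (k : ℤ)) a)] at h2
    rw [← h2]
    refine integral_congr_ae (Filter.Eventually.of_forall fun x => ?_)
    show ev c x = ∏ k : c.support, (c (k : ℤ)) (x (k : ℤ))
    unfold ev
    rw [← Finset.prod_coe_sort]
  rw [h1, Finset.prod_congr rfl (fun k _ => hint _ (Finsupp.mem_support_iff.1 k.2))]
  simp

end Pool.Agent.Q164.RCA.TaskBern
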