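import Pool.Agent.Q164.RCA.Stmts

set_option autoImplicit false

namespace Pool.Agent.Q164.RCA.TaskChain

open Pool.Agent.Q164.RCA

theorem main : Pool.Agent.Q164.RCA.TaskChain := by
  intro p hp L _ u lam R b h k d
  have hp1 : 1 ≤ p := hp.out.one_lt.le
  induction d with
  | zero =>
    refine ⟨0, fun _ => 0, by simp, fun _ => by simp, fun j => by simp⟩
  | succ d ih =>
    obtain ⟨T, N, hT, hN, hb⟩ := ih
    obtain ⟨r, r', hr, hr', hb'⟩ := h (k + d)
    have key : ∀ x y : ℕ, x < p ^ d → y < p → x + y * p ^ d < p ^ (d + 1) := by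
      intro x y hx hy
      have h1 : y + 1 ≤ p := hy
      calc x + y * p ^ d < p ^ d + y * p ^ d := by omega
        _ = (y + 1) * p ^ d := by ring
        _ ≤ p * p ^ d := Nat.mul_le_mul_right _ h1
        _ = p ^ (d + 1) := by ring
    refine ⟨T + r * p ^ d, fun j => N j + r' j * p ^ d, key _ _ hT hr,
      fun j => key _ _ (hN j) (hr' j), fun j => ?_⟩
    have h1 := congrArg (fun z => z ^ (p ^ d)) (hb' j)
    simp only [mul_pow, ← pow_mul] at h1
    have h2 := hb j
    have h3 : b (k + (d + 1)) j ^ p ^ (d + 1) = b (k + d + 1) j ^ (p * p ^ d) := by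
      rw [← Nat.add_assoc k d 1]
      congr 1
      ring
    rw [pow_add, pow_add, h3]
    calc b k j * (u ^ N j * u ^ (r' j * p ^ d))
        = (b k j * u ^ N j) * u ^ (r' j * p ^ d) := by ring
      _ = (lam ^ T * b (k + d) j ^ p ^ d) * u ^ (r' j * p ^ d) := by rw [h2]
      _ = lam ^ T * (b (k + d) j ^ p ^ d * u ^ (r' j * p ^ d)) := by ring
      _ = lam ^ T * (lam ^ (r * p ^ d) * b (k + d + 1) j ^ (p * p ^ d)) := by rw [h1]
      _ = _ := by ring

end Pool.Agent.Q164.RCA.TaskChain
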