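import Pool.Agent.Q164.RCA.Stmts

open Filter Topology MeasureTheory

namespace Pool.Agent.Q164.RCA.TaskConv

open Pool.Agent.Q164.RCA

theorem main : Pool.Agent.Q164.RCA.TaskConv := by
  intro A _ _ _ _ _ _ ν ν₀ l hν hν₀ hf c
  have hcont : Continuous (fun x : ℤ → A => ev c x) := by
    unfold ev
    refine continuous_finset_prod _ (fun k _ => ?_)
    exact (continuous_of_discreteTopology (f := fun a : A => c k a)).comp (continuous_apply k)
  have hre : Continuous (fun x : ℤ → A => (ev c x).re) := Complex.continuous_re.comp hcont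
  have him : Continuous (fun x : ℤ → A => (ev c x).im) := Complex.continuous_im.comp hcont
  have hint : ∀ (μ : Measure (ℤ → A)), IsProbabilityMeasure μ →
      Integrable (fun x => ev c x) μ := by
    intro μ hμ
    exact hcont.integrable_of_hasCompactSupport (HasCompactSupport.of_compactSpace _)
  have hI : ∀ (μ : Measure (ℤ → A)), IsProbabilityMeasure μ → ∫ x, ev c x ∂μ =
      ((∫ x, (ev c x).re ∂μ : ℝ) : ℂ) + ((∫ x, (ev c x).im ∂μ : ℝ) : ℂ) * Complex.I := by
    intro μ hμ
    have := integral_re_add_im (hint μ hμ)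
    simpa using this.symm
  have h1 := hf ⟨_, hre⟩
  have h2 := hf ⟨_, him⟩
  have h3 := ((Complex.continuous_ofReal.tendsto _).comp h1).add
    (((Complex.continuous_ofReal.tendsto _).comp h2).mul_const Complex.I)
  rw [hI ν₀ hν₀]
  refine h3.congr fun t => ?_
  rw [hI (ν t) (hν t)]
  rfl

end Pool.Agent.Q164.RCA.TaskConv
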