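import Pool.Agent.Q164.RCA.Stmts

/-! MP_b3f678_an: task Cycle. -/

open Filter Topology MeasureTheory Polynomial

namespace Pool.Agent.Q164.RCA.TaskCycle

theorem drop {L : Type} [Field L] (u lam : L) {R : ℕ} (β : Fin (R + 1) → L) (j₀ : Fin (R + 1))
    (h : β j₀ = 0) (hS : (Sol u lam β).Infinite) :
    (Sol u lam (fun i => β (j₀.succAbove i))).Infinite := by
  refine hS.mono ?_
  rintro t ⟨n, hn⟩
  refine ⟨fun i => n (j₀.succAbove i), ?_⟩
  rw [hn, Fin.sum_univ_succAbove _ j₀, h, zero_mul, zero_add]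

theorem ne_zero_of_min {L : Type} [Field L] (u lam : L) {R : ℕ} (β : Fin R → L)
    (hS : (Sol u lam β).Infinite) (hmin : ∀ R' < R, ∀ β' : Fin R' → L, ¬ (Sol u lam β').Infinite)
    (j : Fin R) : β j ≠ 0 := by
  intro h
  cases R with
  | zero => exact j.elim0
  | succ R => exact hmin R (Nat.lt_succ_self R) _ (drop u lam β j h hS)

theorem main (hIter : TaskIter) (hChain : TaskChain) (hFin : TaskFinite) : TaskCycle := by
  intro p _ L _ _ _ lam hlam R₀ β₀ h₀
  classical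
  have i1 : CharP (K p) p := charP_of_injective_algebraMap (algebraMap (ZMod p) (K p)).injective p
  have i2 : CharP L p := charP_of_injective_algebraMap (algebraMap (K p) L).injective p
  set u : L := algebraMap (K p) L RatFunc.X with hu
  have hu0 : u ≠ 0 := by
    rw [hu]
    exact (_root_.map_ne_zero _).mpr RatFunc.X_ne_zero
  have hex : ∃ R, ∃ β : Fin R → L, (Sol u lam β).Infinite := ⟨R₀, β₀, h₀⟩
  obtain ⟨R, ⟨β, hβ⟩, hmin⟩ : ∃ R, (∃ β : Fin R → L, (Sol u lam β).Infinite) ∧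
      ∀ R' < R, ∀ β' : Fin R' → L, ¬ (Sol u lam β').Infinite :=
    ⟨Nat.find hex, Nat.find_spec hex, fun R' hR' β' hβ' => Nat.find_min hex hR' ⟨β', hβ'⟩⟩
  obtain ⟨b, hb0, hb⟩ := hIter p L u lam hu0 hlam R β hβ hmin
  have hch := hChain p L u lam R b (fun k => (hb k).2)
  have hfinite : (Set.univ.pi fun j : Fin R => {z : L | ∃ d T N : ℕ, T < p ^ d ∧ N < p ^ d ∧
      b 0 j * (algebraMap (K p) L RatFunc.X) ^ N = lam ^ T * z ^ (p ^ d)}).Finite :=
    Set.Finite.pi fun j => hFin p L (b 0 j) lam hlam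
  have hmaps : Set.MapsTo b (Set.univ : Set ℕ) (Set.univ.pi fun j : Fin R =>
      {z : L | ∃ d T N : ℕ, T < p ^ d ∧ N < p ^ d ∧
      b 0 j * (algebraMap (K p) L RatFunc.X) ^ N = lam ^ T * z ^ (p ^ d)}) := by
    intro d _ j _
    obtain ⟨T, N, hT, hN, h⟩ := hch 0 d
    refine ⟨d, T, N j, hT, hN j, ?_⟩
    have := h j
    rw [zero_add] at this
    exact this
  obtain ⟨k, k', hlt, hbb⟩ : ∃ k k', k < k' ∧ b k = b k' := by
    obtain ⟨k, -, k', -, hkk, hbb⟩ :=
      Set.infinite_univ.exists_ne_map_eq_of_mapsTo hmaps hfinite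
    rcases lt_or_gt_of_ne hkk with h | h
    · exact ⟨k, k', h, hbb⟩
    · exact ⟨k', k, h, hbb.symm⟩
  obtain ⟨T, N, -, -, h⟩ := hch k (k' - k)
  have hk : k + (k' - k) = k' := by omega
  rw [hk, ← hbb] at h
  exact ⟨R, b k, k' - k, T, N, by omega, ne_zero_of_min u lam (b k) (hb k).1 hmin, (hb k).1, h⟩

end Pool.Agent.Q164.RCA.TaskCycle
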