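import Pool.Agent.Q164.RCA.Stmts

/-! Blueprint of helper164 for MP_b3f678_an: TaskDen. -/

namespace Pool.Agent.Q164.RCA.TaskDen

open Pool.Agent.Q164.RCA Polynomial

theorem main : Pool.Agent.Q164.RCA.TaskDen := by
  intro p _ L _ _ _ z
  letI : Algebra (ZMod p)[X] L :=
    ((algebraMap (K p) L).comp (algebraMap (ZMod p)[X] (K p))).toAlgebra
  haveI : IsScalarTower (ZMod p)[X] (K p) L := IsScalarTower.of_algebraMap_eq fun x => rfl
  have h1 : IsAlgebraic (K p) z := Algebra.IsAlgebraic.isAlgebraic z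
  have h2 : IsAlgebraic (ZMod p)[X] z :=
    (IsFractionRing.isAlgebraic_iff (ZMod p)[X] (K p) L).mpr h1
  obtain ⟨D, hD, h3⟩ := h2.exists_integral_multiple
  refine ⟨D, hD, ?_⟩
  rw [Algebra.smul_def] at h3
  exact h3

end Pool.Agent.Q164.RCA.TaskDen
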