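import Pool.Agent.Q164.RCA.Stmts

set_option autoImplicit false

open Polynomial

namespace Pool.Agent.Q164.RCA.TaskDenInf

open Pool.Agent.Q164.RCA

theorem main : Pool.Agent.Q164.RCA.TaskDenInf := by
  intro p _ L _ _ _ z
  classical
  set P := minpoly (K p) z with hP
  have hint : IsIntegral (K p) z := Algebra.IsIntegral.isIntegral z
  have hmonic : P.Monic := minpoly.monic hint
  set d := P.natDegree with hd
  refine ⟨∑ i ∈ Finset.range d, (RatFunc.intDegree (P.coeff i)).toNat, ?_⟩
  intro c hc
  set q : K p := RatFunc.X ^ (-(c : ℤ)) with hq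
  have hX0 : (RatFunc.X : K p) ≠ 0 := RatFunc.X_ne_zero
  have hqm : ∀ m : ℕ, q ^ m = (algebraMap (ZMod p)[X] (K p) (X ^ (c * m)))⁻¹ := by
    intro m
    rw [hq, zpow_neg, zpow_natCast, map_pow, RatFunc.algebraMap_X, inv_pow, ← pow_mul]
  have hmem : ∀ i < d, P.coeff i * q ^ (d - i) ∈ Ainf p := by
    intro i hi
    by_cases h0 : P.coeff i = 0
    · left
      rw [h0, zero_mul]
    right
    have hne : (algebraMap (ZMod p)[X] (K p) (X ^ (c * (d - i)))) ≠ 0 := by
      rw [map_pow, RatFunc.algebraMap_X]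
      exact pow_ne_zero _ hX0
    rw [hqm, RatFunc.intDegree_mul h0 (inv_ne_zero hne), RatFunc.intDegree_inv,
      RatFunc.intDegree_polynomial, natDegree_X_pow]
    have h1 : (RatFunc.intDegree (P.coeff i)).toNat ≤ c :=
      le_trans (Finset.single_le_sum (f := fun i => (RatFunc.intDegree (P.coeff i)).toNat)
        (fun _ _ => Nat.zero_le _) (Finset.mem_range.2 hi)) hc
    have h2 : RatFunc.intDegree (P.coeff i) ≤ ((RatFunc.intDegree (P.coeff i)).toNat : ℤ) :=
      Int.self_le_toNat _
    have h3 : c ≤ c * (d - i) := Nat.le_mul_of_pos_right _ (by omega)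
    have h4 : ((RatFunc.intDegree (P.coeff i)).toNat : ℤ) ≤ ((c * (d - i) : ℕ) : ℤ) := by
      exact_mod_cast h1.trans h3
    omega
  let b : ℕ → Ainf p := fun i => if h : i < d then ⟨P.coeff i * q ^ (d - i), hmem i h⟩ else 0
  refine ⟨X ^ d + ∑ i ∈ Finset.range d, C (b i) * X ^ i, ?_, ?_⟩
  · apply monic_X_pow_add
    refine mem_degreeLT.1 (Submodule.sum_mem _ fun i hi => mem_degreeLT.2 ?_)
    refine lt_of_le_of_lt (degree_C_mul_X_pow_le _ _) ?_
    exact_mod_cast Finset.mem_range.1 hi
  · have hz : aeval z P = 0 := minpoly.aeval _ _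
    rw [aeval_eq_sum_range, Finset.sum_range_succ, ← hd] at hz
    rw [show P.coeff d = 1 from hmonic.coeff_natDegree, one_smul] at hz
    rw [eval₂_add, eval₂_X_pow, eval₂_finsetSum]
    have h1 : ∀ i ∈ Finset.range d,
        eval₂ ((algebraMap (K p) L).comp (Ainf p).subtype) (algebraMap (K p) L q * z)
          (C (b i) * X ^ i) = (algebraMap (K p) L q) ^ d * (P.coeff i • z ^ i) := by
      intro i hi
      have hi' := Finset.mem_range.1 hi
      rw [eval₂_mul, eval₂_C, eval₂_X_pow]
      have h2 : ((algebraMap (K p) L).comp (Ainf p).subtype) (b i) =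
          algebraMap (K p) L (P.coeff i * q ^ (d - i)) := by
        simp only [b, dif_pos hi']
        rfl
      rw [h2, map_mul, map_pow, mul_pow, Algebra.smul_def]
      have h3 : (algebraMap (K p) L q) ^ d =
          (algebraMap (K p) L q) ^ (d - i) * (algebraMap (K p) L q) ^ i := by
        rw [← pow_add]
        congr 1
        omega
      rw [h3]
      ring
    rw [Finset.sum_congr rfl h1, ← Finset.mul_sum, mul_pow, ← mul_add, add_comm, hz, mul_zero]

end Pool.Agent.Q164.RCA.TaskDenInf
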