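import Mathlib
import Pool.Agent.Q164.RCA.Stmts

set_option autoImplicit false

open Filter Topology

namespace Pool.Agent.Q164.RCA.TaskDens

theorem main : Pool.Agent.Q164.RCA.TaskDens := by
  intro D hD
  by_contra hfin
  rw [Set.not_infinite] at hfin
  haveI : Finite D := hfin
  unfold DensityOne at hD
  have h1 : Tendsto (fun n : ℕ => (Nat.card {k : ℕ // k ∈ D ∧ k ≤ n} : ℝ) / n) atTop (𝓝 0) := by
    have h2 : Tendsto (fun n : ℕ => (Nat.card D : ℝ) / n) atTop (𝓝 0) :=
      tendsto_const_div_atTop_nhds_zero_nat _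
    refine squeeze_zero (fun n => by positivity) (fun n => ?_) h2
    apply div_le_div_of_nonneg_right _ (Nat.cast_nonneg n)
    have h3 := Nat.card_le_card_of_injective
      (fun k : {k : ℕ // k ∈ D ∧ k ≤ n} => (⟨k.1, k.2.1⟩ : D))
      (fun a b h => Subtype.ext (by simpa using h))
    exact_mod_cast h3
  rw [h1.liminf_eq] at hD
  exact zero_ne_one hD

end Pool.Agent.Q164.RCA.TaskDens
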