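import Pool.Agent.Q164.RCA.Stmts

set_option autoImplicit false

open MeasureTheory Filter Topology
open Pool.Agent.Q164.RCA

noncomputable section

namespace Pool.Agent.Q164.RCA.TaskDual

private lemma ev_zero {A : Type} [AddCommGroup A] [Fintype A] (x : ℤ → A) : ev (0 : ℤ →₀ AddChar A ℂ) x = 1 := by
  simp [ev]

private lemma ev_single {A : Type} [AddCommGroup A] [Fintype A] (k : ℤ) (χ : AddChar A ℂ) (x : ℤ → A) :
    ev (Finsupp.single k χ) x = χ (x k) := by
  classical
  by_cases h : χ = 0
  · subst h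
    simp [ev]
  · unfold ev
    rw [Finsupp.support_single_ne_zero _ h]
    simp

private lemma chi_sum {A : Type} [AddCommGroup A] (χ : AddChar A ℂ) (f : ℤ → A) (s : Finset ℤ) :
    χ (∑ i ∈ s, f i) = ∏ i ∈ s, χ (f i) := by
  classical
  induction s using Finset.induction_on with
  | empty => simp
  | insert a s ha ih => rw [Finset.sum_insert ha, Finset.prod_insert ha, AddChar.map_add_eq_mul, ih]

private def dm {A : Type} [AddCommGroup A] [Fintype A] (r : ℕ) (φ : ℤ → A →+ A) (k : ℤ) :
    AddChar A ℂ →+ (ℤ →₀ AddChar A ℂ) where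
  toFun χ := ∑ i ∈ Finset.Icc (-(r : ℤ)) r, Finsupp.single (k + i) (χ.compAddMonoidHom (φ i))
  map_zero' := by
    refine Finset.sum_eq_zero fun i _ => ?_
    rw [Finsupp.single_eq_zero]
    ext a
    simp
  map_add' χ ψ := by
    rw [← Finset.sum_add_distrib]
    refine Finset.sum_congr rfl fun i _ => ?_
    rw [← Finsupp.single_add]
    congr 1

theorem main (hL : TaskLocal) (hE : TaskEv) : Pool.Agent.Q164.RCA.TaskDual := by
  intro A _ _ _ _ F hF
  obtain ⟨r, φ, hφ⟩ := hL A F hF
  obtain ⟨hadd, -, -⟩ := hE A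
  let Φ : (ℤ →₀ AddChar A ℂ) →+ (ℤ →₀ AddChar A ℂ) :=
    Finsupp.liftAddHom (α := ℤ) (M := AddChar A ℂ) (N := ℤ →₀ AddChar A ℂ) (fun k => dm r φ k)
  have hs : ∀ k χ, Φ (Finsupp.single k χ) = dm r φ k χ := fun k χ =>
    Finsupp.liftAddHom_apply_single (α := ℤ) (M := AddChar A ℂ) (N := ℤ →₀ AddChar A ℂ) (fun k => dm r φ k) k χ
  refine ⟨Φ, ?_⟩
  intro c x
  induction c using Finsupp.induction_linear with
  | zero => simp [ev_zero]
  | add f g hf hg => rw [map_add, hadd, hadd, hf, hg]
  | single k χ =>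
    rw [ev_single, hs, hφ, chi_sum]
    have key : ∀ s : Finset ℤ, ev (∑ i ∈ s, Finsupp.single (k + i) (χ.compAddMonoidHom (φ i))) x
        = ∏ i ∈ s, χ (φ i (x (k + i))) := by
      intro s
      classical
      induction s using Finset.induction_on with
      | empty => simp [ev_zero]
      | insert a s ha ih =>
        rw [Finset.sum_insert ha, Finset.prod_insert ha, hadd, ih, ev_single]
        rfl
    exact key _

end Pool.Agent.Q164.RCA.TaskDual
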