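import Pool.Agent.Q164.RCA.Stmts

open Filter Topology MeasureTheory Polynomial

namespace Pool.Agent.Q164.RCA.TaskDualEquiv

open Pool.Agent.Q164.RCA

theorem sh_sh {B : Type} [AddCommGroup B] (m n : ℤ) (c : ℤ →₀ B) :
    sh m (sh n c) = sh (n + m) c := by
  unfold sh
  rw [← Finsupp.mapDomain_comp]
  congr 1
  funext k
  simp only [Function.comp_apply]
  ring

theorem sh_zero {B : Type} [AddCommGroup B] (c : ℤ →₀ B) : sh 0 c = c := by
  unfold sh
  have : (fun k : ℤ => k + 0) = id := by funext k; simp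
  rw [this, Finsupp.mapDomain_id]

theorem main (hDual : Pool.Agent.Q164.RCA.TaskDual) (hInv : Pool.Agent.Q164.RCA.TaskInvCA)
    (hEv : Pool.Agent.Q164.RCA.TaskEv) : Pool.Agent.Q164.RCA.TaskDualEquiv := by
  intro A _ _ _ _ F hF hbij
  obtain ⟨F', hF', h1, h2⟩ := hInv A F hF hbij
  obtain ⟨Φ, hΦ⟩ := hDual A F hF
  obtain ⟨Ψ, hΨ⟩ := hDual A F' hF'
  obtain ⟨-, hinj, hsh⟩ := hEv A
  have hl : ∀ c, Ψ (Φ c) = c := by
    intro c
    apply hinj
    intro x
    rw [hΨ, hΦ, h2]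
  have hr : ∀ c, Φ (Ψ c) = c := by
    intro c
    apply hinj
    intro x
    rw [hΦ, hΨ, h1]
  have hs1 : ∀ c, Φ (sh 1 c) = sh 1 (Φ c) := by
    intro c
    apply hinj
    intro x
    rw [hΦ, hsh, ← hF.comm, ← hΦ, ← hsh]
  have hs2 : ∀ c, Φ (sh (-1) c) = sh (-1) (Φ c) := by
    intro c
    have e1 : sh 1 (sh (-1) c) = c := by rw [sh_sh]; simpa using sh_zero c
    have e2 : sh 1 (Φ (sh (-1) c)) = Φ c := by rw [← hs1, e1]
    rw [← e2, sh_sh]
    simpa using (sh_zero (Φ (sh (-1) c))).symm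
  have hsm : ∀ (m : ℤ) c, Φ (sh m c) = sh m (Φ c) := by
    intro m
    induction m using Int.induction_on with
    | zero => intro c; rw [sh_zero, sh_zero]
    | succ n ih =>
      intro c
      have e1 : sh ((n : ℤ) + 1) c = sh 1 (sh (n : ℤ) c) := by rw [sh_sh]
      rw [e1, hs1, ih, sh_sh]
    | pred n ih =>
      intro c
      have e1 : sh (-(n : ℤ) - 1) c = sh (-1) (sh (-(n : ℤ)) c) := by rw [sh_sh]; rfl
      rw [e1, hs2, ih, sh_sh]
      rfl
  exact ⟨{ Φ with invFun := Ψ, left_inv := hl, right_inv := hr }, hΦ, hsm⟩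

end Pool.Agent.Q164.RCA.TaskDualEquiv
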