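import Pool.Agent.Q164.RCA.Stmts

open Filter Topology MeasureTheory

namespace Pool.Agent.Q164.RCA.TaskDualW

open Classical in
theorem main (hLocal : TaskLocal) (hEv : TaskEv) : TaskDual := by
  intro A _ _ _ _ F hF
  obtain ⟨hadd, -, -⟩ := hEv A
  obtain ⟨r, φ, hφ⟩ := hLocal A F hF
  have hev_single : ∀ (k : ℤ) (ψ : AddChar A ℂ) (x : ℤ → A),
      ev (Finsupp.single k ψ) x = ψ (x k) := by
    intro k ψ x
    unfold ev
    by_cases h : ψ = 0
    · subst h
      simp
    · rw [Finsupp.support_single_ne_zero _ h]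
      simp
  have hev_sum : ∀ (ι : Type) (s : Finset ι) (f : ι → (ℤ →₀ AddChar A ℂ)) (x : ℤ → A),
      ev (∑ i ∈ s, f i) x = ∏ i ∈ s, ev (f i) x := by
    intro ι s f x
    induction s using Finset.induction_on with
    | empty => simp [ev]
    | insert a s ha ih => rw [Finset.sum_insert ha, Finset.prod_insert ha, hadd, ih]
  -- pull back of a character along `φ i`
  let pull : ℤ → AddChar A ℂ →+ AddChar A ℂ := fun i =>
    { toFun := fun ψ => ψ.compAddMonoidHom (φ i)
      map_zero' := by ext a; simp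
      map_add' := by intro a b; ext c; simp }
  have hpull : ∀ i ψ a, pull i ψ a = ψ (φ i a) := fun i ψ a => rfl
  let Φ : (ℤ →₀ AddChar A ℂ) →+ (ℤ →₀ AddChar A ℂ) :=
    Finsupp.liftAddHom (fun k : ℤ => ∑ i ∈ Finset.Icc (-(r : ℤ)) r,
      (Finsupp.singleAddHom (k + i)).comp (pull i))
  refine ⟨Φ, ?_⟩
  intro c x
  induction c using Finsupp.induction_linear with
  | zero => simp [ev]
  | add c c' hc hc' => rw [map_add, hadd, hadd, hc, hc']
  | single k ψ =>
    have h1 : Φ (Finsupp.single k ψ) = ∑ i ∈ Finset.Icc (-(r : ℤ)) r,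
        Finsupp.single (k + i) (pull i ψ) := by
      simp [Φ]
    have hsum : ∀ (s : Finset ℤ) (f : ℤ → A), ψ (∑ i ∈ s, f i) = ∏ i ∈ s, ψ (f i) := by
      intro s f
      induction s using Finset.induction_on with
      | empty => simp
      | insert a s ha ih =>
        rw [Finset.sum_insert ha, Finset.prod_insert ha, AddChar.map_add_eq_mul, ih]
    rw [h1, hev_sum, hev_single, hφ, hsum]
    refine Finset.prod_congr rfl ?_
    intro i _
    rw [hev_single, hpull]

end Pool.Agent.Q164.RCA.TaskDualW
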