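import Pool.Agent.Q164.RCA.Stmts

/-! Proof of `TaskEigen` (blueprint of helper164), by helper59. -/

open Polynomial

namespace Pool.Agent.Q164.RCA.TaskEigen

theorem eig (F : Type) [Field F] (n : ℕ) (G : Matrix (Fin n) (Fin n) F)
    (x : Fin n → F) (hx : x ≠ 0) :
    ∃ (L : Type) (_ : Field L) (_ : Algebra F L) (_ : FiniteDimensional F L) (lam : L)
      (l : (Fin n → F) →ₗ[F] L), (∀ t : ℕ, l ((G ^ t).mulVec x) = lam ^ t) ∧
      Polynomial.aeval lam G.charpoly = 0 := by
  classical
  let φ : F[X] →ₗ[F] (Fin n → F) :=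
    { toFun := fun f => (aeval G f).mulVec x
      map_add' := by intro f g; rw [map_add, Matrix.add_mulVec]
      map_smul' := by intro c f; rw [map_smul, Matrix.smul_mulVec]; rfl }
  have hφ : ∀ f, φ f = (aeval G f).mulVec x := fun f => rfl
  let I : Ideal F[X] :=
    { carrier := {f | φ f = 0}
      add_mem' := by
        intro a b ha hb
        have ha' : φ a = 0 := ha
        have hb' : φ b = 0 := hb
        show φ (a + b) = 0
        rw [map_add, ha', hb', add_zero]
      zero_mem' := by show φ 0 = 0; simp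
      smul_mem' := by
        intro c f hf
        have hf' : φ f = 0 := hf
        show φ (c * f) = 0
        rw [hφ, map_mul, ← Matrix.mulVec_mulVec, ← hφ f, hf', Matrix.mulVec_zero] }
  have hI : ∀ f, f ∈ I ↔ φ f = 0 := fun f => Iff.rfl
  have hI1 : I ≠ ⊤ := by
    intro h
    have : (1 : F[X]) ∈ I := by rw [h]; trivial
    rw [hI, hφ, map_one, Matrix.one_mulVec] at this
    exact hx this
  obtain ⟨M, hM, hIM⟩ := Ideal.exists_le_maximal I hI1
  have hchar : G.charpoly ∈ I := by
    rw [hI, hφ, Matrix.aeval_self_charpoly, Matrix.zero_mulVec]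
  let _ : Field (F[X] ⧸ M) := Ideal.Quotient.field M
  have hfin : Module.Finite F (F[X] ⧸ M) := by
    have h1 : Module.Finite F (AdjoinRoot G.charpoly) := (Matrix.charpoly_monic G).finite_adjoinRoot
    have h2 : Ideal.span {G.charpoly} ≤ M := by
      rw [Ideal.span_singleton_le_iff_mem]; exact hIM hchar
    have h1' : Module.Finite F (F[X] ⧸ Ideal.span {G.charpoly}) := h1
    exact Module.Finite.of_surjective (Ideal.Quotient.factorₐ F h2).toLinearMap
      (Ideal.Quotient.factor_surjective h2)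
  let π : F[X] →ₐ[F] (F[X] ⧸ M) := Ideal.Quotient.mkₐ F M
  have hk : LinearMap.ker φ ≤ LinearMap.ker π.toLinearMap := by
    intro f hf
    rw [LinearMap.mem_ker] at hf ⊢
    have : f ∈ M := hIM ((hI f).2 hf)
    exact Ideal.Quotient.eq_zero_iff_mem.2 this
  let g : LinearMap.range φ →ₗ[F] (F[X] ⧸ M) :=
    ((LinearMap.ker φ).liftQ π.toLinearMap hk) ∘ₗ (φ.quotKerEquivRange.symm : _ →ₗ[F] _)
  obtain ⟨l, hl⟩ := LinearMap.exists_extend g
  have key : ∀ f, l (φ f) = π f := by
    intro f
    have h1 : l (φ f) = g ⟨φ f, LinearMap.mem_range_self φ f⟩ := by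
      rw [← hl]; rfl
    rw [h1]
    have h2 : φ.quotKerEquivRange.symm ⟨φ f, LinearMap.mem_range_self φ f⟩ =
        (LinearMap.ker φ).mkQ f := by
      rw [LinearEquiv.symm_apply_eq]; rfl
    show ((LinearMap.ker φ).liftQ π.toLinearMap hk) (φ.quotKerEquivRange.symm _) = _
    rw [h2]
    rfl
  refine ⟨F[X] ⧸ M, inferInstance, inferInstance, hfin, π X, l, ?_, ?_⟩
  · intro t
    have := key (X ^ t)
    rw [hφ, map_pow, aeval_X, map_pow] at this
    exact this
  · rw [Polynomial.aeval_algHom_apply, Polynomial.aeval_X_left_apply]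
    exact Ideal.Quotient.eq_zero_iff_mem.2 (hIM hchar)

theorem main : Pool.Agent.Q164.RCA.TaskEigen := by
  intro p _ n G x hx
  exact eig (K p) n G x hx

end Pool.Agent.Q164.RCA.TaskEigen
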