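import Pool.Agent.Q164.RCA.Stmts

open Filter Topology MeasureTheory Polynomial

namespace Pool.Agent.Q164.RCA.TaskElim

theorem main (hred : TaskReduce) (hres : TaskResid) : Pool.Agent.Q164.RCA.TaskElim := by
  intro p _ L _ _ u lam hu hlam R β hInf hmin
  obtain ⟨r, r', hr, hr', hI⟩ := hres p L u lam hu hlam R β hInf
  have hz : ∀ j, ∃ y : L, y ^ p = β j * u ^ (r' j) * (lam ^ r)⁻¹ := by
    intro j
    by_contra hcon
    have hcon' : ∀ y : L, y ^ p ≠ β j * u ^ (r' j) * (lam ^ r)⁻¹ := fun y hy => hcon ⟨y, hy⟩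
    obtain ⟨R', hR'⟩ : ∃ R', R = R' + 1 := ⟨R - 1, by have := j.pos; omega⟩
    subst hR'
    obtain ⟨β', hβ'⟩ := hred p L u lam R' (fun j => β j * u ^ (r' j) * (lam ^ r)⁻¹) j hcon' hI
    exact hmin R' (Nat.lt_succ_self _) β' hβ'
  choose y hy using hz
  have hl : lam ^ r ≠ 0 := pow_ne_zero _ hlam
  refine ⟨r, r', y, hr, hr', ?_, ?_⟩
  · intro j
    rw [hy j]
    field_simp
  · refine hI.mono ?_
    rintro t ⟨n, hn⟩
    refine ⟨n, ?_⟩
    have hinj : Function.Injective (frobenius L p) := frobenius_inj L p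
    apply hinj
    rw [map_sum]
    simp only [frobenius_def, mul_pow]
    rw [hn]
    exact Finset.sum_congr rfl fun j _ => by rw [hy j]

end Pool.Agent.Q164.RCA.TaskElim
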