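import Pool.Agent.Q164.RCA.Stmts

/-! MP_b3f678_an, crowd lemma RCA.TaskEmbInj (helper37): `emb` is injective. -/

open Polynomial

namespace Pool.Agent.Q164.RCA.TaskEmbInj

open Pool.Agent.Q164.RCA

theorem main : TaskEmbInj := by
  intro p _ n c h
  by_contra hc
  obtain ⟨k0, hk0⟩ : c.support.Nonempty := Finsupp.support_nonempty_iff.2 hc
  have hne : c k0 ≠ 0 := Finsupp.mem_support_iff.1 hk0
  apply hne
  funext i
  let N : ℕ := c.support.sup (fun k => k.natAbs)
  have hN : ∀ k ∈ c.support, 0 ≤ k + N := by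
    intro k hk
    have : k.natAbs ≤ N := Finset.le_sup (f := fun k : ℤ => k.natAbs) hk
    omega
  let f : (ZMod p)[X] := ∑ k ∈ c.support, Polynomial.monomial ((k + N).toNat) (c k i)
  have hf : algebraMap (ZMod p)[X] (K p) f = 0 := by
    have h1 : emb p c i = 0 := by rw [h]; rfl
    have h2 : algebraMap (ZMod p)[X] (K p) f = (RatFunc.X : K p) ^ (N : ℤ) * emb p c i := by
      simp only [f, emb, Finsupp.sum, map_sum, Finset.mul_sum]
      refine Finset.sum_congr rfl fun k hk => ?_
      have h3 : (((k + N).toNat : ℕ) : ℤ) = k + N := Int.toNat_of_nonneg (hN k hk)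
      rw [← Polynomial.C_mul_X_pow_eq_monomial, map_mul, map_pow, RatFunc.algebraMap_X,
        ← Polynomial.algebraMap_eq, ← IsScalarTower.algebraMap_apply, ← zpow_natCast, h3,
        zpow_add₀ RatFunc.X_ne_zero]
      ring
    rw [h2, h1, mul_zero]
  have hf0 : f = 0 := RatFunc.algebraMap_injective (ZMod p) (by rw [hf, map_zero])
  have hcoef := congrArg (fun q => Polynomial.coeff q (k0 + N).toNat) hf0
  simp only [f, Polynomial.finset_sum_coeff, Polynomial.coeff_monomial,
    Polynomial.coeff_zero] at hcoef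
  rw [Finset.sum_eq_single k0] at hcoef
  · simpa using hcoef
  · intro k hk hkk
    rw [if_neg]
    intro he
    have h1 := hN k hk
    have h2 := hN k0 hk0
    omega
  · intro hk
    exact absurd hk0 hk

end Pool.Agent.Q164.RCA.TaskEmbInj
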