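import Mathlib
import Pool.Agent.Q164.RCA.Stmts

/-!
# Blueprint for MP_b3f678_an: additivity of `emb` and its behaviour under shifts
-/

set_option autoImplicit false

namespace Pool.Agent.Q164.RCA.TaskEmbSh

open Filter Topology MeasureTheory Polynomial

theorem main : Pool.Agent.Q164.RCA.TaskEmbSh := by
  intro p hp n
  refine ⟨?_, ?_, ?_⟩
  · intro c c'
    funext i
    simp only [emb, Pi.add_apply]
    rw [Finsupp.sum_add_index']
    · intro k
      simp
    · intro k a b
      simp [add_mul]
  · intro m c
    funext i
    simp only [emb, sh, Pi.smul_apply, smul_eq_mul]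
    rw [Finsupp.sum_mapDomain_index]
    · rw [Finsupp.mul_sum]
      refine Finsupp.sum_congr (fun k _ => ?_)
      rw [zpow_add₀ RatFunc.X_ne_zero]
      ring
    · intro k
      simp
    · intro k a b
      simp [add_mul]
  · intro m v
    funext i
    simp only [emb, Pi.smul_apply, smul_eq_mul]
    rw [Finsupp.sum_single_index]
    · ring
    · simp

end Pool.Agent.Q164.RCA.TaskEmbSh
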