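import Pool.Agent.Q164.RCA.Stmts

/-! Crowd lemma (helper234) for helper164's blueprint RCA. -/

open Polynomial

namespace Pool.Agent.Q164.RCA.TaskEmbSurj

theorem emb_single (p : ℕ) [Fact p.Prime] {n : ℕ} (m : ℤ) (v : Fin n → ZMod p) :
    emb p (Finsupp.single m v) = fun i => algebraMap (ZMod p) (K p) (v i) * (RatFunc.X : K p) ^ m := by
  funext i
  unfold emb
  rw [Finsupp.sum_single_index]
  simp

theorem emb_add (p : ℕ) [Fact p.Prime] {n : ℕ} (c c' : ℤ →₀ (Fin n → ZMod p)) :
    emb p (c + c') = emb p c + emb p c' := by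
  funext i
  simp only [emb, Pi.add_apply]
  rw [Finsupp.sum_add_index']
  · intro k; simp
  · intro k v w; simp [add_mul]

theorem emb_zero (p : ℕ) [Fact p.Prime] {n : ℕ} : emb p (0 : ℤ →₀ (Fin n → ZMod p)) = 0 := by
  funext i
  simp [emb]

noncomputable def embHom (p : ℕ) [Fact p.Prime] (n : ℕ) : (ℤ →₀ (Fin n → ZMod p)) →+ (Fin n → K p) where
  toFun := emb p
  map_zero' := emb_zero p
  map_add' := emb_add p

theorem main : Pool.Agent.Q164.RCA.TaskEmbSurj := by
  classical
  intro p _ n y hy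
  choose N f h using hy
  have hX : (RatFunc.X : K p) ≠ 0 := RatFunc.X_ne_zero
  have hyi : ∀ i, y i = ∑ k ∈ (f i).support,
      algebraMap (ZMod p) (K p) ((f i).coeff k) * (RatFunc.X : K p) ^ ((k : ℤ) - N i) := by
    intro i
    have h1 : y i = ((RatFunc.X : K p) ^ N i)⁻¹ * algebraMap (ZMod p)[X] (K p) (f i) := by
      rw [← h i, ← mul_assoc, inv_mul_cancel₀ (pow_ne_zero _ hX), one_mul]
    rw [h1]
    conv_lhs => rw [Polynomial.as_sum_support_C_mul_X_pow (f i)]
    rw [map_sum, Finset.mul_sum]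
    apply Finset.sum_congr rfl
    intro k _
    rw [map_mul, map_pow, RatFunc.algebraMap_C, RatFunc.algebraMap_X, RatFunc.algebraMap_eq_C,
      zpow_sub₀ hX, zpow_natCast, zpow_natCast]
    ring
  have hmem : y ∈ (embHom p n).range := by
    have h2 : y = ∑ i, Pi.single i (y i) := (Finset.univ_sum_single y).symm
    rw [h2]
    apply AddSubgroup.sum_mem
    intro i _
    rw [hyi i]
    have h3 : (Pi.single i (∑ k ∈ (f i).support,
        algebraMap (ZMod p) (K p) ((f i).coeff k) * (RatFunc.X : K p) ^ ((k : ℤ) - N i)) : Fin n → K p) =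
        ∑ k ∈ (f i).support, emb p (Finsupp.single ((k : ℤ) - N i) (Pi.single i ((f i).coeff k))) := by
      funext j
      rw [Finset.sum_apply]
      by_cases hj : j = i
      · subst hj
        simp [emb_single]
      · simp [emb_single, Pi.single_eq_of_ne hj]
    rw [h3]
    apply AddSubgroup.sum_mem
    intro k _
    exact ⟨_, rfl⟩
  obtain ⟨c, hc⟩ := hmem
  exact ⟨c, hc⟩

end Pool.Agent.Q164.RCA.TaskEmbSurj
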