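import Pool.Agent.Q164.RCA.Stmts

/-!
# `TaskEv`: the value of a character is additive in the configuration, injective, and shifts
-/

set_option autoImplicit false

namespace Pool.Agent.Q164.RCA.TaskEv

open Pool.Agent.Q164.RCA

variable {A : Type} [AddCommGroup A] [Fintype A]

theorem ev_eq_prod (c : ℤ →₀ AddChar A ℂ) (x : ℤ → A) :
    ev c x = c.prod fun k χ => χ (x k) := rfl

theorem ev_single (c : ℤ →₀ AddChar A ℂ) (k : ℤ) (a : A) :
    ev c (Pi.single k a) = c k a := by
  unfold ev
  rw [Finset.prod_eq_single k]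
  · rw [Pi.single_eq_same]
  · intro j _ hj
    rw [Pi.single_eq_of_ne hj, AddChar.map_zero_eq_one]
  · intro hk
    rw [Finsupp.notMem_support_iff.1 hk, AddChar.zero_apply]

theorem main : Pool.Agent.Q164.RCA.TaskEv := by
  intro A _ _
  refine ⟨?_, ?_, ?_⟩
  · intro c c' x
    rw [ev_eq_prod, ev_eq_prod, ev_eq_prod]
    exact Finsupp.prod_add_index' (fun k => AddChar.zero_apply _)
      (fun k χ χ' => AddChar.add_apply _ _ _)
  · intro c c' h
    ext k a
    have := h (Pi.single k a)
    rwa [ev_single, ev_single] at this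
  · intro c x
    rw [ev_eq_prod, ev_eq_prod]
    unfold sh
    rw [Finsupp.prod_mapDomain_index_inj (add_left_injective (1 : ℤ))]
    rfl

end Pool.Agent.Q164.RCA.TaskEv
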