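import Pool.Agent.Q164.RCA.Stmts

open Filter Topology MeasureTheory Polynomial

namespace Pool.Agent.Q164.RCA.TaskFieldMain

open Pool.Agent.Q164.RCA

theorem zpow_mem_A {p : ℕ} [Fact p.Prime] {W : Type} [Field W] [Algebra (ZMod p) W] (w : W) (k : ℤ) :
    w ^ k ∈ Algebra.adjoin (Cst p W) ({w, w⁻¹} : Set W) := by
  obtain ⟨n, rfl | rfl⟩ := Int.eq_nat_or_neg k
  · rw [zpow_natCast]
    exact Subalgebra.pow_mem _ (Algebra.subset_adjoin (by simp)) n
  · rw [zpow_neg, zpow_natCast, ← inv_pow]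
    exact Subalgebra.pow_mem _ (Algebra.subset_adjoin (by simp)) n

theorem isIntegral_zpow {p : ℕ} [Fact p.Prime] {W : Type} [Field W] [Algebra (ZMod p) W] (w : W)
    (k : ℤ) : IsIntegral (Algebra.adjoin (Cst p W) ({w, w⁻¹} : Set W)) (w ^ k) := by
  have h : w ^ k = algebraMap (Algebra.adjoin (Cst p W) ({w, w⁻¹} : Set W)) W
      ⟨w ^ k, zpow_mem_A w k⟩ := rfl
  rw [h]
  exact isIntegral_algebraMap

theorem isIntegral_of_intX {p : ℕ} [Fact p.Prime] {L W : Type} [Field L] [Field W]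
    [Algebra (ZMod p) W] [Algebra (K p) L] (i : L →+* W) (w : W) (P : ℕ)
    (hw : w ^ P = i (algebraMap (K p) L RatFunc.X)) (z : L) (hz : IntX p z) :
    IsIntegral (Algebra.adjoin (Cst p W) ({w, w⁻¹} : Set W)) (i z) := by
  obtain ⟨f, hf, hfz⟩ := hz
  set A := Algebra.adjoin (Cst p W) ({w, w⁻¹} : Set W) with hA
  have hmem : i (algebraMap (K p) L RatFunc.X) ∈ A := by
    rw [← hw]
    exact Subalgebra.pow_mem _ (Algebra.subset_adjoin (by simp)) P
  let φ : (ZMod p)[X] →+* A := Polynomial.eval₂RingHom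
    ((algebraMap (Cst p W) A).comp (algebraMap (ZMod p) (Cst p W))) ⟨_, hmem⟩
  have hφ : (algebraMap A W).comp φ =
      i.comp ((algebraMap (K p) L).comp (algebraMap (ZMod p)[X] (K p))) := by
    apply Polynomial.ringHom_ext'
    · exact RingHom.ext_zmod _ _
    · have : φ X = ⟨_, hmem⟩ := by simp [φ]
      rw [RingHom.comp_apply, this, RingHom.comp_apply, RingHom.comp_apply, RatFunc.algebraMap_X]
      rfl
  refine ⟨f.map φ, hf.map φ, ?_⟩
  rw [Polynomial.eval₂_map, hφ, ← Polynomial.hom_eval₂, hfz, map_zero]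

theorem main (hcyc : TaskCycle) (hmono : TaskMono) (hunit : TaskUnit) (hroot : TaskRoot) :
    Pool.Agent.Q164.RCA.TaskFieldMain := by
  intro p _ L _ _ _ lam hlam hint R₀ β₀ hsol
  obtain ⟨N0, hN0⟩ := hint
  obtain ⟨R, β, d, T, N, hd, hβ, hS, hrel⟩ := hcyc p L lam hlam R₀ β₀ hsol
  obtain ⟨W, _, _, ⟨i⟩⟩ : ∃ (W : Type) (_ : Field W) (_ : IsAlgClosed W), Nonempty (L →+* W) :=
    ⟨AlgebraicClosure L, inferInstance, inferInstance, ⟨algebraMap _ _⟩⟩
  set j : K p →+* W := i.comp (algebraMap (K p) L) with hj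
  let _ : Algebra (ZMod p) W := (j.comp (algebraMap (ZMod p) (K p))).toAlgebra
  set u : L := algebraMap (K p) L RatFunc.X with hu
  have hu0 : u ≠ 0 := by
    rw [hu]
    exact (_root_.map_ne_zero _).2 RatFunc.X_ne_zero
  have hP : 2 ≤ p ^ d := by
    have h1 := (Fact.out : p.Prime).two_le
    calc 2 ≤ p := h1
      _ = p ^ 1 := (pow_one p).symm
      _ ≤ p ^ d := Nat.pow_le_pow_right (by omega) hd
  have hP1 : 0 < p ^ d - 1 := by omega
  obtain ⟨w, hw⟩ := IsAlgClosed.exists_pow_nat_eq (i u) hP1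
  have hiu : i u ≠ 0 := (_root_.map_ne_zero i).2 hu0
  have hil : i lam ≠ 0 := (_root_.map_ne_zero i).2 hlam
  have hw0 : w ≠ 0 := by
    rintro rfl
    rw [zero_pow hP1.ne'] at hw
    exact hiu hw.symm
  obtain ⟨t, ht, ht1⟩ := hS.exists_gt 0
  obtain ⟨s, m, g, hs, hg, hgp⟩ := hmono p W (i u) (i lam) w hiu hil (p ^ d) hP hw R
    (fun k => i (β k)) T N (fun k => (_root_.map_ne_zero i).2 (hβ k))
    (fun k => by
      have := congrArg i (hrel k)
      simpa using this) t (by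
      obtain ⟨n, hn⟩ := ht
      refine ⟨n, ?_⟩
      have := congrArg i hn
      rw [map_pow, map_sum] at this
      rw [this]
      apply Finset.sum_congr rfl
      intro k _
      rw [map_mul, map_zpow₀]) ht1
  have hg0 : g ≠ 0 := by
    rintro rfl
    rw [zero_pow hP1.ne'] at hgp
    exact (mul_ne_zero (pow_ne_zero s hil) (zpow_ne_zero m hiu)) hgp.symm
  -- integrality
  have hi1 : IsIntegral (Algebra.adjoin (Cst p W) ({w, w⁻¹} : Set W)) (i lam)⁻¹ := by
    have h1 := isIntegral_of_intX i w (p ^ d - 1) hw _ hN0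
    have h2 := (isIntegral_zpow (p := p) w (-(((p ^ d - 1 : ℕ) : ℤ) * N0))).mul h1
    have h3 : w ^ (-(((p ^ d - 1 : ℕ) : ℤ) * N0)) *
        i ((algebraMap (K p) L RatFunc.X) ^ N0 * lam⁻¹) = (i lam)⁻¹ := by
      rw [map_mul, map_pow, map_inv₀, ← hu, ← hw, zpow_neg, zpow_mul, zpow_natCast, zpow_natCast,
        ← mul_assoc, inv_mul_cancel₀ (pow_ne_zero _ (pow_ne_zero _ hw0)), one_mul]
    rwa [h3] at h2
  have hi2 : IsIntegral (Algebra.adjoin (Cst p W) ({w, w⁻¹} : Set W)) (g⁻¹) := by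
    apply IsIntegral.of_pow hP1
    have h1 : g⁻¹ ^ (p ^ d - 1) = (i lam)⁻¹ ^ s * w ^ (-(((p ^ d - 1 : ℕ) : ℤ) * m)) := by
      rw [inv_pow, hgp, mul_inv, inv_pow, zpow_neg, zpow_mul, zpow_natCast, hw]
    rw [h1]
    exact (hi1.pow s).mul (isIntegral_zpow w _)
  -- transcendence
  have htr : Transcendental (ZMod p) w := by
    intro halg
    have h1 : IsAlgebraic (ZMod p) (i u) := by
      rw [← hw]
      exact halg.pow _
    obtain ⟨f, hf0, hf⟩ := h1
    apply hf0
    have h2 : j (algebraMap (ZMod p)[X] (K p) f) = 0 := by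
      rw [← hf, Polynomial.aeval_def]
      have h3 : (j.comp (algebraMap (ZMod p)[X] (K p))) =
          Polynomial.eval₂RingHom (algebraMap (ZMod p) W) (i u) := by
        apply Polynomial.ringHom_ext'
        · exact RingHom.ext_zmod _ _
        · rw [Polynomial.coe_eval₂RingHom, Polynomial.eval₂_X, RingHom.comp_apply,
            RatFunc.algebraMap_X]
          rfl
      have h4 := congrArg (fun q => q f) h3
      exact h4
    have h5 := (map_eq_zero j).1 h2
    exact (IsFractionRing.injective (ZMod p)[X] (K p)) (by rw [h5, map_zero])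
  obtain ⟨c, m', hc, hc0, hgc⟩ := hunit p W w htr g g⁻¹ hg (mul_inv_cancel₀ hg0) hi2
  obtain ⟨e, he, hce⟩ := hroot p W c hc hc0
  refine ⟨s * e, (m' - m) * e, Nat.mul_pos hs he, ?_⟩
  apply i.injective
  rw [map_pow, map_zpow₀]
  have h1 : (i lam) ^ s = c ^ (p ^ d - 1) * (i u) ^ (m' - m) := by
    have h2 : (i lam) ^ s = g ^ (p ^ d - 1) * (i u) ^ (-m) := by
      rw [hgp, mul_assoc, ← zpow_add₀ hiu, add_neg_cancel, zpow_zero, mul_one]
    rw [h2, hgc, mul_pow, ← zpow_natCast (w ^ m'), ← zpow_mul, mul_comm m', zpow_mul, zpow_natCast,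
      hw, mul_assoc, ← zpow_add₀ hiu]
    rfl
  rw [pow_mul, h1, mul_pow, ← pow_mul, mul_comm (p ^ d - 1) e, pow_mul, hce, one_pow, one_mul,
    zpow_mul, zpow_natCast]

end Pool.Agent.Q164.RCA.TaskFieldMain
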