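import Pool.Agent.Q164.RCA.Stmts

/-! Blueprint of helper164 for MP_b3f678_an: TaskFinInt. -/

namespace Pool.Agent.Q164.RCA.TaskFinInt

open Pool.Agent.Q164.RCA Polynomial

theorem fin_poly {A : Type} [Semiring A] (C : Set A) (hC : C.Finite) (N : ℕ) :
    {f : A[X] | f.natDegree ≤ N ∧ ∀ i, f.coeff i ∈ C}.Finite := by
  apply Set.Finite.of_finite_image (f := fun f : A[X] => fun i : Fin (N + 1) => f.coeff i)
  · apply Set.Finite.subset (Set.Finite.pi' (fun _ : Fin (N + 1) => hC))
    rintro _ ⟨f, hf, rfl⟩ i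
    exact hf.2 i
  · intro f hf g hg hfg
    ext i
    by_cases hi : i < N + 1
    · exact congrFun hfg ⟨i, hi⟩
    · rw [coeff_eq_zero_of_natDegree_lt (by have := hf.1; omega),
        coeff_eq_zero_of_natDegree_lt (by have := hg.1; omega)]

theorem main (hX : Pool.Agent.Q164.RCA.TaskMinX) (hI : Pool.Agent.Q164.RCA.TaskMinInf) :
    Pool.Agent.Q164.RCA.TaskFinInt := by
  intro p _ L _ _ _ c
  let N : ℕ := c * Module.finrank (K p) L
  let C : Set (K p) := (algebraMap (ZMod p)[X] (K p)) '' {g : (ZMod p)[X] | g.natDegree ≤ N}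
  have hC : C.Finite := by
    apply Set.Finite.image
    apply (fin_poly (Set.univ : Set (ZMod p)) Set.finite_univ N).subset
    intro g hg
    exact ⟨hg, fun _ => Set.mem_univ _⟩
  have hM := fin_poly C hC (Module.finrank (K p) L)
  apply (Set.Finite.biUnion hM (t := fun f => f.rootSet L)
    (fun f _ => Polynomial.rootSet_finite f L)).subset
  rintro z ⟨hz1, hz2⟩
  have hint : IsIntegral (K p) z := IsIntegral.of_finite (K p) z
  have hdeg : (minpoly (K p) z).natDegree ≤ Module.finrank (K p) L := minpoly.natDegree_le z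
  refine Set.mem_iUnion₂.mpr ⟨minpoly (K p) z, ⟨hdeg, ?_⟩, ?_⟩
  · intro i
    by_cases h0 : (minpoly (K p) z).coeff i = 0
    · rw [h0]
      exact ⟨0, by simp, by simp⟩
    · obtain ⟨g, hg⟩ := hX p L z hint hz1 i
      have h1 := hI p L z c hint hz2 i h0
      rw [hg] at h0 h1 ⊢
      refine ⟨g, ?_, rfl⟩
      rw [RatFunc.intDegree_polynomial] at h1
      have h2 : c * (minpoly (K p) z).natDegree ≤ N := Nat.mul_le_mul_left _ hdeg
      show g.natDegree ≤ N
      have h3 : (g.natDegree : ℤ) ≤ ((c * (minpoly (K p) z).natDegree : ℕ) : ℤ) := by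
        push_cast; exact h1
      have h4 : g.natDegree ≤ c * (minpoly (K p) z).natDegree := by exact_mod_cast h3
      exact h4.trans h2
  · rw [Polynomial.mem_rootSet]
    exact ⟨minpoly.ne_zero hint, minpoly.aeval (K p) z⟩

end Pool.Agent.Q164.RCA.TaskFinInt
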