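import Pool.Agent.Q164.RCA.Stmts

open Polynomial

namespace Pool.Agent.Q164.RCA.TaskFinite

theorem int_of_pow {R S : Type*} [CommRing R] [CommRing S] (f : R →+* S) (x : S) (n : ℕ)
    (hn : 0 < n) (h : f.IsIntegralElem (x ^ n)) : f.IsIntegralElem x := by
  letI := f.toAlgebra
  exact IsIntegral.of_pow (R := R) hn h

theorem int_pow {R S : Type*} [CommRing R] [CommRing S] (f : R →+* S) (x : S) (n : ℕ)
    (h : f.IsIntegralElem x) : f.IsIntegralElem (x ^ n) := by
  letI := f.toAlgebra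
  exact IsIntegral.pow (R := R) h n

theorem int_mul {R S : Type*} [CommRing R] [CommRing S] (f : R →+* S) (x y : S)
    (hx : f.IsIntegralElem x) (hy : f.IsIntegralElem y) : f.IsIntegralElem (x * y) := by
  letI := f.toAlgebra
  exact IsIntegral.mul (R := R) hx hy

theorem int_map {R S : Type*} [CommRing R] [CommRing S] (f : R →+* S) (x : R) :
    f.IsIntegralElem (f x) := by
  letI := f.toAlgebra
  exact isIntegral_algebraMap (R := R) (A := S) (x := x)

theorem main (h1 : TaskFinInt) (h2 : TaskDen) (h3 : TaskDenInf) :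
    Pool.Agent.Q164.RCA.TaskFinite := by
  intro p _ L _ _ _ b lam hlam
  obtain ⟨D1, hD1, hb⟩ := h2 p L b
  obtain ⟨D2, hD2, hl⟩ := h2 p L lam⁻¹
  set δ : (ZMod p)[X] →+* L := (algebraMap (K p) L).comp (algebraMap (ZMod p)[X] (K p)) with hδ
  set U : L := algebraMap (K p) L RatFunc.X with hU
  have hXne : (RatFunc.X : K p) ≠ 0 := RatFunc.X_ne_zero
  have hUne : U ≠ 0 := by
    rw [hU]
    simpa using hXne
  have hδinj : Function.Injective δ := by
    rw [hδ]
    exact (algebraMap (K p) L).injective.comp (IsFractionRing.injective (ZMod p)[X] (K p))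
  set E : L := δ (D1 * D2) with hE
  have hEne : E ≠ 0 := by
    rw [hE]
    intro h
    have h' : D1 * D2 = 0 := hδinj (by rw [h, map_zero])
    exact (mul_ne_zero hD1 hD2) h'
  have hEint : IntX p E := int_map δ _
  have hEb : IntX p (E * b) := by
    have : E * b = δ D2 * (δ D1 * b) := by
      rw [hE, map_mul]; ring
    rw [this]
    exact int_mul δ _ _ (int_map δ _) hb
  have hEl : IntX p (E * lam⁻¹) := by
    have : E * lam⁻¹ = δ D1 * (δ D2 * lam⁻¹) := by
      rw [hE, map_mul]; ring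
    rw [this]
    exact int_mul δ _ _ (int_map δ _) hl
  have hUint : IntX p U := by
    have : U = δ Polynomial.X := by
      rw [hU, hδ, RingHom.comp_apply, RatFunc.algebraMap_X]
    rw [this]
    exact int_map δ _
  obtain ⟨c1, hc1⟩ := h3 p L b
  obtain ⟨c2, hc2⟩ := h3 p L lam⁻¹
  obtain ⟨c3, hc3⟩ := h3 p L (E ^ 2)
  set c := max c1 c2 with hc
  set ι : Ainf p →+* L := (algebraMap (K p) L).comp (Ainf p).subtype with hι
  have hXinv : (RatFunc.X : K p)⁻¹ ∈ Ainf p := by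
    right
    rw [RatFunc.intDegree_inv, RatFunc.intDegree_X]
    norm_num
  have hUinv : ∀ k : ℕ, IntInf p ((U⁻¹) ^ k) := by
    intro k
    apply int_pow
    have : U⁻¹ = ι ⟨(RatFunc.X : K p)⁻¹, hXinv⟩ := by
      rw [hU, hι, RingHom.comp_apply]
      simp
    rw [this]
    exact int_map ι _
  have hfin := h1 p L (2 * c + 1 + c3)
  have hinj : Function.Injective (fun z : L => E ^ 2 * z) := by
    intro x y hxy
    exact mul_left_cancel₀ (pow_ne_zero 2 hEne) hxy
  refine (hfin.preimage (f := fun z : L => E ^ 2 * z) hinj.injOn).subset ?_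
  rintro z ⟨d, T, N, hT, hN, hz⟩
  have hp : 0 < p := (Fact.out : p.Prime).pos
  have hq : 0 < p ^ d := pow_pos hp d
  set q := p ^ d with hqdef
  have hzq : z ^ q = b * U ^ N * (lam⁻¹) ^ T := by
    have hlT : lam ^ T ≠ 0 := pow_ne_zero _ hlam
    rw [hz, inv_pow]
    field_simp
  refine ⟨?_, ?_⟩
  · apply int_of_pow _ _ q hq
    have : (E ^ 2 * z) ^ q = (E * b) * (E * lam⁻¹) ^ T * E ^ (2 * q - 1 - T) * U ^ N := by
      rw [mul_pow, hzq, ← pow_mul, mul_pow]
      have h2q : 2 * q = 1 + T + (2 * q - 1 - T) := by omega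
      conv_lhs => rw [h2q, pow_add, pow_add, pow_one]
      ring
    rw [this]
    exact int_mul _ _ _ (int_mul _ _ _ (int_mul _ _ _ hEb (int_pow _ _ _ hEl))
      (int_pow _ _ _ hEint)) (int_pow _ _ _ hUint)
  · have hsplit : algebraMap (K p) L (RatFunc.X ^ (-((2 * c + 1 + c3 : ℕ) : ℤ))) * (E ^ 2 * z)
        = (algebraMap (K p) L (RatFunc.X ^ (-(c3 : ℤ))) * E ^ 2) *
          (algebraMap (K p) L (RatFunc.X ^ (-((2 * c + 1 : ℕ) : ℤ))) * z) := by
      have : (-((2 * c + 1 + c3 : ℕ) : ℤ)) = (-(c3 : ℤ)) + (-((2 * c + 1 : ℕ) : ℤ)) := by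
        push_cast; ring
      rw [this, zpow_add₀ hXne, map_mul]
      ring
    show IntInf p _
    rw [hsplit]
    refine int_mul _ _ _ (hc3 c3 le_rfl) ?_
    apply int_of_pow _ _ q hq
    have hk : c * (1 + T) + N ≤ (2 * c + 1) * q := by
      have h1T : 1 + T ≤ q := by omega
      have : c * (1 + T) ≤ c * q := Nat.mul_le_mul_left _ h1T
      nlinarith
    obtain ⟨k, hk'⟩ := Nat.exists_eq_add_of_le hk
    have hmap : ∀ n : ℕ, algebraMap (K p) L (RatFunc.X ^ (-(n : ℤ))) = (U⁻¹) ^ n := by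
      intro n
      rw [zpow_neg, zpow_natCast, map_inv₀, map_pow, inv_pow]
    have heq : (algebraMap (K p) L (RatFunc.X ^ (-((2 * c + 1 : ℕ) : ℤ))) * z) ^ q
        = (algebraMap (K p) L (RatFunc.X ^ (-(c : ℤ))) * b) *
          (algebraMap (K p) L (RatFunc.X ^ (-(c : ℤ))) * lam⁻¹) ^ T * (U⁻¹) ^ k := by
      rw [mul_pow, hzq, hmap, hmap, ← pow_mul, hk', pow_add, pow_add, mul_add, pow_add, mul_one,
        mul_pow, ← pow_mul]
      have hUN : (U⁻¹) ^ N * U ^ N = 1 := by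
        rw [← mul_pow, inv_mul_cancel₀ hUne, one_pow]
      calc (U⁻¹) ^ c * (U⁻¹) ^ (c * T) * (U⁻¹) ^ N * (U⁻¹) ^ k * (b * U ^ N * (lam⁻¹) ^ T)
          = (U⁻¹) ^ c * b * ((U⁻¹) ^ (c * T) * (lam⁻¹) ^ T) * (U⁻¹) ^ k * ((U⁻¹) ^ N * U ^ N) := by
            ring
        _ = _ := by rw [hUN, mul_one]
    rw [heq]
    exact int_mul _ _ _ (int_mul _ _ _ (hc1 c (le_max_left _ _))
      (int_pow _ _ _ (hc2 c (le_max_right _ _)))) (hUinv k)

end Pool.Agent.Q164.RCA.TaskFinite
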