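import Pool.Agent.Q164.RCA.Stmts

set_option autoImplicit false

open Pool.Agent.Q164.RCA

namespace Pool.Agent.Q164.RCA.TaskFunc

/-- `L` with the scalar multiplication `a • y = a ^ p * y` -/
def Tw (_p : ℕ) (L : Type) : Type := L

section
variable (p : ℕ) [Fact p.Prime] (L : Type) [Field L] [CharP L p]

noncomputable instance : AddCommGroup (Tw p L) := inferInstanceAs (AddCommGroup L)

noncomputable instance : Module L (Tw p L) :=
  letI : Module L L := Semiring.toModule
  (Module.compHom L (frobenius L p) : Module L L)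

def toTw (y : L) : Tw p L := y

theorem smul_toTw (a y : L) : a • toTw p L y = toTw p L (a ^ p * y) := rfl

end

theorem main : Pool.Agent.Q164.RCA.TaskFunc := by
  intro p _ L _ _ z hz
  have hn : toTw p L z ∉ Submodule.span L {toTw p L (1 : L)} := by
    intro h
    rw [Submodule.mem_span_singleton] at h
    obtain ⟨a, ha⟩ := h
    rw [smul_toTw, mul_one] at ha
    exact hz a ha
  obtain ⟨f, hf, hf0⟩ := Submodule.exists_dual_map_eq_bot_of_notMem hn inferInstance
  have hf1 : f (toTw p L (1 : L)) = 0 := by
    have h1 : f (toTw p L (1 : L)) ∈ Submodule.map f (Submodule.span L {toTw p L (1 : L)}) :=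
      Submodule.mem_map_of_mem (Submodule.mem_span_singleton_self _)
    rw [hf0] at h1
    exact (Submodule.mem_bot L).1 h1
  refine ⟨{ toFun := fun y => (f (toTw p L z))⁻¹ * f (toTw p L y), map_zero' := ?_, map_add' := ?_ },
    ?_, ?_, ?_⟩
  · have h : f (toTw p L 0) = 0 := f.map_zero
    rw [h, mul_zero]
  · intro x y
    have h : f (toTw p L (x + y)) = f (toTw p L x) + f (toTw p L y) :=
      f.map_add (toTw p L x) (toTw p L y)
    rw [h, mul_add]
  · intro a y
    show (f (toTw p L z))⁻¹ * f (toTw p L (a ^ p * y)) = a * ((f (toTw p L z))⁻¹ * f (toTw p L y))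
    rw [← smul_toTw, map_smul, smul_eq_mul]
    ring
  · show (f (toTw p L z))⁻¹ * f (toTw p L 1) = 0
    rw [hf1, mul_zero]
  · show (f (toTw p L z))⁻¹ * f (toTw p L z) = 1
    exact inv_mul_cancel₀ hf

end Pool.Agent.Q164.RCA.TaskFunc
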