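import Pool.Agent.Q164.RCA.Stmts

set_option autoImplicit false
set_option linter.all false

namespace Pool.Agent.Q164.RCA.TaskFuncOne

open Pool.Agent.Q164.RCA

theorem main : Pool.Agent.Q164.RCA.TaskFuncOne := by
  intro p _ L _ _
  let φ : L →+* L := frobenius L p
  let e : L ≃+* φ.fieldRange :=
    RingEquiv.ofBijective φ.rangeRestrictField φ.rangeRestrictField_bijective
  have he : ∀ a : L, ((e a : φ.fieldRange) : L) = a ^ p := fun a => rfl
  obtain ⟨g, hg⟩ := LinearMap.exists_leftInverse_of_injective (Algebra.linearMap φ.fieldRange L) (by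
    rw [LinearMap.ker_eq_bot]; exact (algebraMap φ.fieldRange L).injective)
  have hg1 : g 1 = 1 := by
    have := LinearMap.congr_fun hg 1
    simpa using this
  refine ⟨(e.symm.toRingHom.toAddMonoidHom).comp g.toAddMonoidHom, ?_, ?_⟩
  · intro a y
    have h1 : a ^ p * y = (e a) • y := by
      rw [Subfield.smul_def, he a, smul_eq_mul]
    show e.symm (g (a ^ p * y)) = a * e.symm (g y)
    rw [h1, map_smul, smul_eq_mul, map_mul, RingEquiv.symm_apply_apply]
  · show e.symm (g 1) = 1
    rw [hg1, map_one]

end Pool.Agent.Q164.RCA.TaskFuncOne
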