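import Pool.Agent.Q164.RCA.Stmts

/-! TaskGroup of the blueprint of helper164 (proof: helper155) -/

namespace Pool.Agent.Q164.RCA.TaskGroup

open Pool.Agent.Q164.RCA

theorem exists_equiv2 (V : Type) [AddCommGroup V] [Finite V] (p : ℕ) [Fact p.Prime]
    [Module (ZMod p) V] : ∃ n : ℕ, Nonempty ((Fin n → ZMod p) ≃+ V) := by
  have h1 : Module.Finite (ZMod p) V := Module.Finite.of_finite
  exact ⟨Module.finrank (ZMod p) V, ⟨(Module.finBasis (ZMod p) V).equivFun.symm.toAddEquiv⟩⟩

theorem exists_equiv (V : Type) [AddCommGroup V] [Finite V] (p : ℕ) [Fact p.Prime]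
    (hV : ∀ x : V, p • x = 0) : ∃ n : ℕ, Nonempty ((Fin n → ZMod p) ≃+ V) := by
  have m : Module (ZMod p) V := AddCommGroup.zmodModule hV
  exact @exists_equiv2 V _ _ p _ m

/-- the elements killed by a prime `p` are the image of some `(Z/p)^n` -/
theorem exists_iota (B : Type) [AddCommGroup B] [Finite B] (p : ℕ) [Fact p.Prime] :
    ∃ (n : ℕ) (ι : (Fin n → ZMod p) →+ B), Function.Injective ι ∧
      ∀ b : B, p • b = 0 → ∃ w, ι w = b := by
  classical
  let V : AddSubgroup B := (nsmulAddMonoidHom (α := B) p).ker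
  have hV : ∀ x : V, p • x = 0 := by
    rintro ⟨x, hx⟩
    apply Subtype.ext
    simpa [V, AddMonoidHom.mem_ker] using hx
  obtain ⟨n, ⟨e⟩⟩ := exists_equiv V p hV
  refine ⟨n, V.subtype.comp e.toAddMonoidHom, ?_, ?_⟩
  · intro x y h
    have h1 : e x = e y := Subtype.ext h
    exact e.injective h1
  · intro x hx
    refine ⟨e.symm ⟨x, ?_⟩, ?_⟩
    · simpa [V, AddMonoidHom.mem_ker] using hx
    · change ((e (e.symm ⟨x, _⟩) : V) : B) = x
      rw [AddEquiv.apply_symm_apply]

theorem sh_map {B W : Type} [AddCommGroup B] [AddCommGroup W] (ι : W →+ B) (m : ℤ) (w : ℤ →₀ W) :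
    Finsupp.mapRange.addMonoidHom ι (sh m w) = sh m (Finsupp.mapRange.addMonoidHom ι w) := by
  induction w using Finsupp.induction_linear with
  | zero => simp [sh]
  | add f g hf hg =>
    have h1 : sh m (f + g) = sh m f + sh m g := by simp [sh, Finsupp.mapDomain_add]
    rw [h1, map_add, map_add, hf, hg]
    simp [sh, Finsupp.mapDomain_add]
  | single a b => simp [sh, Finsupp.mapDomain_single]

theorem main (h : TaskVec) : TaskGroup := by
  classical
  intro B _ _ Φ hΦ c hc R hinf
  -- an element of prime order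
  have hfin : 0 < Nat.card B := Nat.card_pos
  have hk : (Nat.card B) • c = 0 := by
    ext i
    simp
  have hord : addOrderOf c ∣ Nat.card B := addOrderOf_dvd_of_nsmul_eq_zero hk
  have hne : addOrderOf c ≠ 1 := by
    intro h1
    exact hc (AddMonoid.addOrderOf_eq_one_iff.mp h1)
  obtain ⟨p, hp, q, hq⟩ := Nat.exists_prime_and_dvd hne
  have hpf : Fact p.Prime := ⟨hp⟩
  have hopos : 0 < addOrderOf c := Nat.pos_of_dvd_of_pos hord hfin
  have hq0 : 0 < q := by
    rcases Nat.eq_zero_or_pos q with h0 | h0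
    · rw [h0, mul_zero] at hq; omega
    · exact h0
  set c' : ℤ →₀ B := q • c with hc'
  have hc'0 : c' ≠ 0 := by
    intro h0
    have h1 : addOrderOf c ∣ q := addOrderOf_dvd_of_nsmul_eq_zero h0
    have h2 := Nat.le_of_dvd hq0 h1
    rw [hq] at h2
    have := hp.two_le
    nlinarith
  have hpc' : p • c' = 0 := by
    rw [hc', ← mul_smul, ← hq, addOrderOf_nsmul_eq_zero]
  obtain ⟨n, ι, hι, hsurj⟩ := exists_iota B p
  set J : (ℤ →₀ (Fin n → ZMod p)) →+ (ℤ →₀ B) := Finsupp.mapRange.addMonoidHom ι with hJ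
  have hJi : ∀ (w : ℤ →₀ (Fin n → ZMod p)) (i : ℤ), J w i = ι (w i) := by
    intro w i; simp [hJ]
  have hJinj : Function.Injective J := by
    intro x y hxy
    ext1 i
    apply hι
    rw [← hJi, ← hJi, hxy]
  have hJsurj : ∀ x : ℤ →₀ B, p • x = 0 → ∃ w, J w = x := by
    intro x hx
    have h1 : ∀ i, ∃ w, ι w = x i := by
      intro i
      apply hsurj
      have := DFunLike.congr_fun hx i
      simpa using this
    choose g hg using h1
    refine ⟨Finsupp.onFinset x.support g ?_, ?_⟩
    · intro i hi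
      rw [Finsupp.mem_support_iff]
      intro h0
      apply hi
      apply hι
      rw [hg, h0, map_zero]
    · ext i
      rw [hJi]
      simp [hg]
  have hJp : ∀ w, p • J w = 0 := by
    intro w
    ext i
    rw [Finsupp.smul_apply, hJi, ← map_nsmul]
    have : p • (w i) = 0 := by
      ext j
      simp
    rw [this]; simp
  have hex : ∀ w, ∃ w', J w' = Φ (J w) := by
    intro w
    apply hJsurj
    rw [← map_nsmul, hJp, map_zero]
  choose ψ hψ using hex
  have hψadd : ∀ x y, ψ (x + y) = ψ x + ψ y := by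
    intro x y
    apply hJinj
    rw [hψ, map_add, map_add, map_add, hψ, hψ]
  have hψinj : Function.Injective ψ := by
    intro x y hxy
    apply hJinj
    apply Φ.injective
    rw [← hψ, ← hψ, hxy]
  have hψsurj : Function.Surjective ψ := by
    intro y
    obtain ⟨w, hw⟩ := hJsurj (Φ.symm (J y)) (by rw [← map_nsmul, hJp, map_zero])
    refine ⟨w, hJinj ?_⟩
    rw [hψ, hw, AddEquiv.apply_symm_apply]
  let Ψ : (ℤ →₀ (Fin n → ZMod p)) ≃+ (ℤ →₀ (Fin n → ZMod p)) :=
    { Equiv.ofBijective ψ ⟨hψinj, hψsurj⟩ with map_add' := hψadd }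
  have hΨ : ∀ w, J (Ψ w) = Φ (J w) := hψ
  have hΨsh : ∀ m w, Ψ (sh m w) = sh m (Ψ w) := by
    intro m w
    apply hJinj
    rw [hΨ, hJ, sh_map, sh_map, hΦ, ← hJ, hΨ]
  have hiter : ∀ t w, J (Ψ^[t] w) = Φ^[t] (J w) := by
    intro t
    induction t with
    | zero => intro w; rfl
    | succ t ih =>
      intro w
      rw [Function.iterate_succ_apply, Function.iterate_succ_apply, ih, hΨ]
  have hsupp : ∀ w, (J w).support = w.support := by
    intro w
    ext i
    rw [Finsupp.mem_support_iff, Finsupp.mem_support_iff, hJi, not_iff_not]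
    constructor
    · intro h0
      apply hι
      rw [h0, map_zero]
    · intro h0
      rw [h0, map_zero]
  obtain ⟨w, hw⟩ := hJsurj c' hpc'
  have hw0 : w ≠ 0 := by
    rintro rfl
    apply hc'0
    rw [← hw, map_zero]
  have hitern : ∀ t, Φ^[t] c' = q • Φ^[t] c := by
    intro t
    induction t with
    | zero => rfl
    | succ t ih =>
      rw [Function.iterate_succ_apply', Function.iterate_succ_apply', ih, map_nsmul]
  have hinf' : {t : ℕ | (Ψ^[t] w).support.card ≤ R}.Infinite := by
    refine hinf.mono ?_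
    intro t ht
    have h1 : (Ψ^[t] w).support ⊆ (Φ^[t] c).support := by
      rw [← hsupp, hiter, hw, hitern]
      exact Finsupp.support_smul
    exact le_trans (Finset.card_le_card h1) ht
  obtain ⟨y, s, m, hy, hs, hys⟩ := h p n Ψ hΨsh w hw0 R hinf'
  refine ⟨J y, s, m, ?_, hs, ?_⟩
  · intro h0
    apply hy
    apply hJinj
    rw [h0, map_zero]
  · rw [← hiter, hys, hJ, sh_map]

end Pool.Agent.Q164.RCA.TaskGroup
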