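import Mathlib
import Pool.Agent.Q164.RCA.Stmts

/-! # TaskInt of the blueprint Q164/RCA (helper161) -/

open Polynomial

namespace Pool.Agent.Q164.RCA.TaskInt

theorem main : Pool.Agent.Q164.RCA.TaskInt := by
  intro p _ n G H hGH hH L _ _ lam hlam
  set φ : K p →+* L := algebraMap (K p) L with hφ
  have hdet : (Matrix.scalar (Fin n) lam - G.map φ).det = 0 := by
    rw [← Matrix.eval_charpoly, Matrix.charpoly_map, Polynomial.eval_map]
    simpa [Polynomial.aeval_def] using hlam
  obtain ⟨v, hv, hGv⟩ := Matrix.exists_mulVec_eq_zero_iff.mpr hdet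
  have hscal : ∀ (z : L), (Matrix.scalar (Fin n) z).mulVec v = z • v := by
    intro z
    ext i
    simp [Matrix.scalar_apply, Matrix.mulVec_diagonal]
  have hGv' : (G.map φ).mulVec v = lam • v := by
    rw [Matrix.sub_mulVec, sub_eq_zero, hscal] at hGv
    exact hGv.symm
  have hHG : H * G = 1 := mul_eq_one_comm.mp hGH
  have hHG' : (H.map φ) * (G.map φ) = 1 := by
    rw [← Matrix.map_mul, hHG, Matrix.map_one _ (map_zero φ) (map_one φ)]
  have h1 : lam • (H.map φ).mulVec v = v := by
    rw [← Matrix.mulVec_smul, ← hGv', Matrix.mulVec_mulVec, hHG', Matrix.one_mulVec]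
  have hlam0 : lam ≠ 0 := by
    rintro rfl
    rw [zero_smul] at h1
    exact hv h1.symm
  have h2 : (H.map φ).mulVec v = lam⁻¹ • v := by
    have h3 := congrArg (fun w => lam⁻¹ • w) h1
    simpa [smul_smul, inv_mul_cancel₀ hlam0] using h3
  refine ⟨hlam0, ?_⟩
  choose N f hf using hH
  set N0 : ℕ := Finset.univ.sup (fun i => Finset.univ.sup (fun j => N i j)) with hN0
  have hN : ∀ i j, N i j ≤ N0 := by
    intro i j
    exact le_trans (Finset.le_sup (f := fun j => N i j) (Finset.mem_univ j))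
      (Finset.le_sup (f := fun i => Finset.univ.sup (fun j => N i j)) (Finset.mem_univ i))
  let M : Matrix (Fin n) (Fin n) (ZMod p)[X] := fun i j => X ^ (N0 - N i j) * f i j
  have hM : ∀ i j, algebraMap (ZMod p)[X] (K p) (M i j) = RatFunc.X ^ N0 * H i j := by
    intro i j
    simp only [M, map_mul, map_pow, RatFunc.algebraMap_X]
    rw [← hf i j, ← mul_assoc, ← pow_add, Nat.sub_add_cancel (hN i j)]
  refine ⟨N0, M.charpoly, M.charpoly_monic, ?_⟩
  have hMmap : M.map (φ.comp (algebraMap (ZMod p)[X] (K p))) = (φ RatFunc.X) ^ N0 • (H.map φ) := by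
    ext i j
    simp only [Matrix.map_apply, RingHom.comp_apply, Matrix.smul_apply, smul_eq_mul]
    rw [hM, map_mul, map_pow]
  rw [← Polynomial.eval_map, ← Matrix.charpoly_map, Matrix.eval_charpoly]
  apply Matrix.exists_mulVec_eq_zero_iff.mp
  refine ⟨v, hv, ?_⟩
  rw [Matrix.sub_mulVec, sub_eq_zero, hscal, hMmap, Matrix.smul_mulVec, h2, smul_smul]

end Pool.Agent.Q164.RCA.TaskInt
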