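import Pool.Agent.Q164.RCA.Stmts

set_option autoImplicit false

open Filter Topology MeasureTheory Polynomial

namespace Pool.Agent.Q164.RCA.TaskInvCA

theorem main : Pool.Agent.Q164.RCA.TaskInvCA := by
  intro A _ _ _ _ F hF hbij
  obtain ⟨e, he⟩ : ∃ e : (ℤ → A) ≃ (ℤ → A), (e : (ℤ → A) → (ℤ → A)) = F :=
    ⟨Equiv.ofBijective F hbij, rfl⟩
  have hc : Continuous e := by rw [he]; exact hF.cont
  have h1 : ∀ x, e.symm (F x) = x := fun x => by rw [← he]; exact e.symm_apply_apply x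
  have h2 : ∀ x, F (e.symm x) = x := fun x => by rw [← he]; exact e.apply_symm_apply x
  refine ⟨e.symm, ⟨?_, ?_, ?_⟩, h1, h2⟩
  · exact (hc.homeoOfEquivCompactToT2).symm.continuous
  · intro x
    apply hbij.1
    rw [h2, hF.comm, h2]
  · intro x y
    apply hbij.1
    rw [h2, hF.add, h2, h2]

end Pool.Agent.Q164.RCA.TaskInvCA
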