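import Mathlib
import Pool.Agent.Q164.RCA.Stmts

namespace Pool.Agent.Q164.RCA.TaskIter

theorem main (h : Pool.Agent.Q164.RCA.TaskElim) : Pool.Agent.Q164.RCA.TaskIter := by
  intro p _ L _ _ u lam hu hlam R β hβ hmin
  have hstep : ∀ s : {β' : Fin R → L // (Sol u lam β').Infinite},
      ∃ s' : {β' : Fin R → L // (Sol u lam β').Infinite},
        ∃ (r : ℕ) (r' : Fin R → ℕ), r < p ∧ (∀ j, r' j < p) ∧
          ∀ j, s.1 j * u ^ (r' j) = lam ^ r * (s'.1 j) ^ p := by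
    intro s
    obtain ⟨r, r', β', h1, h2, h3, h4⟩ := h p L u lam hu hlam R s.1 s.2 hmin
    exact ⟨⟨β', h4⟩, r, r', h1, h2, h3⟩
  choose nx hnx using hstep
  refine ⟨fun k => (nx^[k] ⟨β, hβ⟩).1, rfl, fun k => ⟨(nx^[k] ⟨β, hβ⟩).2, ?_⟩⟩
  have e : nx^[k + 1] ⟨β, hβ⟩ = nx (nx^[k] ⟨β, hβ⟩) := Function.iterate_succ_apply' nx k _
  simp only [e]
  exact hnx _

end Pool.Agent.Q164.RCA.TaskIter
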