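import Pool.Agent.Q164.RCA.Stmts

/-! Proof of `TaskLam` (MP_b3f678_an), helper240. -/

namespace Pool.Agent.Q164.RCA.TaskLam

open MeasureTheory Pool.Agent.Q164.RCA

theorem main : Pool.Agent.Q164.RCA.TaskLam := by
  intro A _ _ _ _
  have hp : IsProbabilityMeasure (PMF.uniformOfFintype A).toMeasure :=
    PMF.toMeasure.isProbabilityMeasure _
  refine ⟨by unfold lam; infer_instance, ?_⟩
  intro c hc
  unfold lam
  have h1 : ∀ x : ℤ → A, ev c x =
      (fun y : (c.support → A) => ∏ k : c.support, c k (y k)) (c.support.restrict x) := by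
    intro x
    unfold ev
    rw [← Finset.prod_coe_sort]
    rfl
  rw [integral_congr_ae (Filter.Eventually.of_forall h1)]
  refine (integral_restrict_infinitePi (μ := fun _ : ℤ => (PMF.uniformOfFintype A).toMeasure)
    (s := c.support) (f := fun y : (c.support → A) => ∏ k : c.support, c k (y k)) ?_).trans ?_
  swap
  · rw [integral_fintype_prod_eq_prod (fun (k : c.support) (a : A) => c k a)]
    obtain ⟨k, hk⟩ := Finsupp.support_nonempty_iff.2 hc
    refine Finset.prod_eq_zero (Finset.mem_univ (⟨k, hk⟩ : c.support)) ?_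
    rw [PMF.integral_eq_sum]
    have h2 : c k ≠ 0 := Finsupp.mem_support_iff.1 hk
    have h3 : ∑ a, c k a = 0 := AddChar.sum_eq_zero_iff_ne_zero.2 h2
    simp only [PMF.uniformOfFintype_apply]
    rw [← Finset.smul_sum, h3, smul_zero]
  · refine Measurable.aestronglyMeasurable ?_
    refine Finset.measurable_prod _ fun k _ => ?_
    have h4 : Measurable (fun a : A => c k a) := measurable_of_finite _
    exact h4.comp (measurable_pi_apply _)

end Pool.Agent.Q164.RCA.TaskLam
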