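import Pool.Agent.Q164.RCA.Stmts

/-!
# Local rule of an abelian cellular automaton (helper57)
-/

open Filter Topology

namespace Pool.Agent.Q164.RCA.TaskLocal

theorem comm_int {A : Type} {F : (ℤ → A) → (ℤ → A)} (h : ∀ x, F (shift x) = shift (F x)) (k : ℤ) :
    ∀ x : ℤ → A, F (fun i => x (i + k)) = fun i => F x (i + k) := by
  induction k using Int.induction_on with
  | zero => intro x; simp
  | succ m ih =>
    intro x
    have h1 : (fun i => x (i + ((m : ℤ) + 1))) = shift (fun i => x (i + m)) := by
      funext i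
      change x _ = x _
      congr 1
      ring
    rw [h1, h, ih x]
    funext i
    change F x _ = F x _
    congr 1
    ring
  | pred m ih =>
    intro x
    have h1 : (fun i => x (i + (-(m : ℤ)))) = shift (fun i => x (i + (-(m : ℤ) - 1))) := by
      funext i
      change x _ = x _
      congr 1
      ring
    have h2 := ih x
    rw [h1, h] at h2
    funext i
    have h3 := congrFun h2 (i - 1)
    change F (fun i => x (i + (-(m : ℤ) - 1))) (i - 1 + 1) = F x (i - 1 + -(m : ℤ)) at h3
    rw [sub_add_cancel] at h3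
    rw [h3]
    congr 1
    ring

theorem main : Pool.Agent.Q164.RCA.TaskLocal := by
  intro A _ _ _ _ F hF
  have hadd := hF.add
  have h0 : F 0 = 0 := by
    have h1 := hadd 0 0
    rw [add_zero] at h1
    exact left_eq_add.1 h1
  have hsum : ∀ (s : Finset ℤ) (f : ℤ → (ℤ → A)), F (∑ i ∈ s, f i) = ∑ i ∈ s, F (f i) := by
    classical
    intro s f
    induction s using Finset.induction_on with
    | empty => simpa using h0
    | insert a s ha ih => rw [Finset.sum_insert ha, Finset.sum_insert ha, hadd, ih]
  have hopen : IsOpen {x : ℤ → A | F x 0 = 0} := by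
    have hc : Continuous fun x : ℤ → A => F x 0 := (continuous_apply 0).comp hF.cont
    exact (isOpen_discrete ({0} : Set A)).preimage hc
  obtain ⟨I, u, hu, hI⟩ := isOpen_pi_iff.1 hopen 0 (by rw [Set.mem_ofPred_eq, h0]; rfl)
  have hI' : ∀ x : ℤ → A, (∀ i ∈ I, x i = 0) → F x 0 = 0 := by
    intro x hx
    refine hI fun i hi => ?_
    rw [hx i hi]
    exact (hu i hi).2
  set r : ℕ := I.sup Int.natAbs with hr
  have hIr : ∀ i ∈ I, i ∈ Finset.Icc (-(r : ℤ)) r := by
    intro i hi
    have h1 : i.natAbs ≤ r := Finset.le_sup (f := Int.natAbs) hi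
    rw [Finset.mem_Icc]
    omega
  let φ : ℤ → A →+ A := fun i =>
    { toFun := fun a => F (Pi.single i a) 0
      map_zero' := by
        rw [Pi.single_zero, h0]
        rfl
      map_add' := by
        intro a b
        rw [Pi.single_add, hadd]
        rfl }
  have hφ : ∀ i a, φ i a = F (Pi.single i a) 0 := fun i a => rfl
  have hzero : ∀ x : ℤ → A, F x 0 = ∑ i ∈ Finset.Icc (-(r : ℤ)) r, φ i (x i) := by
    intro x
    have h1 : x = (x - ∑ i ∈ Finset.Icc (-(r : ℤ)) r, Pi.single i (x i)) +
        ∑ i ∈ Finset.Icc (-(r : ℤ)) r, Pi.single i (x i) := by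
      rw [sub_add_cancel]
    conv_lhs => rw [h1]
    rw [hadd, Pi.add_apply, hsum, Finset.sum_apply]
    rw [hI', zero_add]
    · rfl
    intro j hj
    rw [Pi.sub_apply, Finset.sum_apply, sub_eq_zero]
    rw [Finset.sum_eq_single j]
    · rw [Pi.single_eq_same]
    · intro b _ hb
      rw [Pi.single_eq_of_ne (Ne.symm hb)]
    · intro hj'
      exact absurd (hIr j hj) hj'
  refine ⟨r, φ, fun x k => ?_⟩
  have h1 := congrFun (comm_int hF.comm k x) 0
  rw [zero_add] at h1
  rw [← h1, hzero]
  refine Finset.sum_congr rfl fun i _ => ?_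
  rw [add_comm i k]

end Pool.Agent.Q164.RCA.TaskLocal
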