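import Pool.Agent.Q164.RCA.Stmts

open Filter Topology MeasureTheory

namespace Pool.Agent.Q164.RCA.TaskMap

open Pool.Agent.Q164.RCA

theorem main : Pool.Agent.Q164.RCA.TaskMap := by
  intro A _ _ _ _ _ _ F hF Φ hΦ μ hμ t
  have hFt : Measurable (F^[t]) := (hF.cont.iterate t).measurable
  have hev : ∀ (t : ℕ) (c : ℤ →₀ AddChar A ℂ) (x : ℤ → A),
      ev (Φ^[t] c) x = ev c (F^[t] x) := by
    intro t
    induction t with
    | zero => intro c x; rfl
    | succ t ih =>
      intro c x
      rw [Function.iterate_succ_apply', hΦ, ih, ← Function.iterate_succ_apply]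
  refine ⟨Measure.isProbabilityMeasure_map hFt.aemeasurable, fun c => ?_⟩
  have hcont : Continuous (fun x : ℤ → A => ev c x) := by
    unfold ev
    refine continuous_finset_prod _ (fun k _ => ?_)
    exact (continuous_of_discreteTopology (f := fun a : A => c k a)).comp (continuous_apply k)
  rw [integral_map hFt.aemeasurable hcont.measurable.aestronglyMeasurable]
  exact integral_congr_ae (Eventually.of_forall fun x => (hev t c x).symm)

end Pool.Agent.Q164.RCA.TaskMap
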