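import Pool.Agent.Q164.RCA.Stmts

namespace Pool.Agent.Q164.RCA.TaskMatMain

open Pool.Agent.Q164.RCA

theorem main (hF : TaskFieldMain) (hE : TaskEigen) (hI : TaskInt) (hB : TaskBack) :
    Pool.Agent.Q164.RCA.TaskMatMain := by
  intro p _ n G H hGH hH x hx R a hinf
  obtain ⟨L, iF, iA, iD, lam, l, hl, hchar⟩ := hE p n G x hx
  obtain ⟨hlam, hN⟩ := hI p n G H hGH hH L lam hchar
  have hsol : (Sol (algebraMap (K p) L RatFunc.X) lam (fun j => l (a j))).Infinite := by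
    refine hinf.mono ?_
    rintro t ⟨m, hm⟩
    refine ⟨m, ?_⟩
    have h := congrArg l hm
    rw [hl t, map_sum] at h
    rw [h]
    refine Finset.sum_congr rfl fun j _ => ?_
    rw [map_smul, Algebra.smul_def, map_zpow₀, mul_comm]
  obtain ⟨s, m, hs, hsm⟩ := hF p L lam hlam hN R (fun j => l (a j)) hsol
  obtain ⟨y, hy, hyL, hyG⟩ := hB p n G L lam hchar s m hsm
  exact ⟨y, hy, hyL, s, m, hs, hyG⟩

end Pool.Agent.Q164.RCA.TaskMatMain
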