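import Pool.Agent.Q164.RCA.Stmts

set_option autoImplicit false

open Polynomial

namespace Pool.Agent.Q164.RCA.TaskMinInf

open Pool.Agent.Q164.RCA

theorem intDegree_X_pow (p : ℕ) [Fact p.Prime] (n : ℕ) :
    RatFunc.intDegree ((RatFunc.X : K p) ^ n) = n := by
  induction n with
  | zero => simp
  | succ n ih =>
    rw [pow_succ, RatFunc.intDegree_mul (pow_ne_zero _ RatFunc.X_ne_zero) RatFunc.X_ne_zero, ih,
      RatFunc.intDegree_X]
    push_cast
    ring

theorem minpoly_scale {F L : Type} [Field F] [Field L] [Algebra F L] (a : F) (ha : a ≠ 0) (w : L)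
    (hw : IsIntegral F w) : minpoly F (algebraMap F L a * w) = (minpoly F w).scaleRoots a := by
  have hz : IsIntegral F (algebraMap F L a * w) := isIntegral_algebraMap.mul hw
  have h1 : minpoly F (algebraMap F L a * w) ∣ (minpoly F w).scaleRoots a :=
    minpoly.dvd _ _ (scaleRoots_aeval_eq_zero (minpoly.aeval F w))
  have h2 : minpoly F w ∣ (minpoly F (algebraMap F L a * w)).scaleRoots a⁻¹ := by
    refine minpoly.dvd _ _ ?_
    have h3 := scaleRoots_aeval_eq_zero (r := a⁻¹) (minpoly.aeval F (algebraMap F L a * w))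
    have h4 : algebraMap F L a⁻¹ * (algebraMap F L a * w) = w := by
      rw [← mul_assoc, ← map_mul, inv_mul_cancel₀ ha, map_one, one_mul]
    rwa [h4] at h3
  have m1 : ((minpoly F w).scaleRoots a).Monic := (monic_scaleRoots_iff a).2 (minpoly.monic hw)
  have m2 : ((minpoly F (algebraMap F L a * w)).scaleRoots a⁻¹).Monic :=
    (monic_scaleRoots_iff a⁻¹).2 (minpoly.monic hz)
  have d2 := natDegree_le_of_dvd h2 m2.ne_zero
  rw [natDegree_scaleRoots] at d2
  refine (eq_of_monic_of_dvd_of_natDegree_le (minpoly.monic hz) m1 h1 ?_).symm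
  rw [natDegree_scaleRoots]
  exact d2

theorem main (hA : TaskAinf) : Pool.Agent.Q164.RCA.TaskMinInf := by
  intro p _ L _ _ z c hz hf i hi
  obtain ⟨f, hfm, hf0⟩ := hf
  obtain ⟨a, ha⟩ : ∃ a : K p, a = RatFunc.X ^ c := ⟨_, rfl⟩
  have ha0 : a ≠ 0 := by rw [ha]; exact pow_ne_zero _ RatFunc.X_ne_zero
  have hw0 : (RatFunc.X : K p) ^ (-(c : ℤ)) = a⁻¹ := by
    rw [ha, zpow_neg, zpow_natCast]
  rw [hw0] at hf0
  obtain ⟨w, hw⟩ : ∃ w : L, w = algebraMap (K p) L a⁻¹ * z := ⟨_, rfl⟩
  rw [← hw] at hf0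
  have hzw : z = algebraMap (K p) L a * w := by
    rw [hw, ← mul_assoc, ← map_mul, mul_inv_cancel₀ ha0, map_one, one_mul]
  have hwi : IsIntegral (K p) w := by
    rw [hw]
    exact isIntegral_algebraMap.mul hz
  have hdvd : minpoly (K p) w ∣ f.map (algebraMap (Ainf p) (K p)) := by
    refine minpoly.dvd _ _ ?_
    rw [aeval_def, eval₂_map]
    exact hf0
  have hlift := integralClosure.mem_lifts_of_monic_of_dvd_map (K p) hfm (minpoly.monic hwi) hdvd
  have hcoef : ∀ j, (minpoly (K p) w).coeff j ∈ Ainf p := by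
    intro j
    refine hA p _ ?_
    rw [lifts_iff_coeff_lifts] at hlift
    obtain ⟨y, hy⟩ := hlift j
    rw [← hy]
    exact y.2
  have hmin : minpoly (K p) z = (minpoly (K p) w).scaleRoots a := by
    rw [hzw]
    exact minpoly_scale a ha0 w hwi
  rw [hmin, coeff_scaleRoots] at hi
  rw [hmin, coeff_scaleRoots, natDegree_scaleRoots]
  have hc0 : (minpoly (K p) w).coeff i ≠ 0 := left_ne_zero_of_mul hi
  have hc1 := right_ne_zero_of_mul hi
  rw [RatFunc.intDegree_mul hc0 hc1, ha, ← pow_mul, intDegree_X_pow]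
  have h1 : RatFunc.intDegree ((minpoly (K p) w).coeff i) ≤ 0 := by
    rcases hcoef i with h | h
    · exact absurd h hc0
    · exact h
  have h2 : c * ((minpoly (K p) w).natDegree - i) ≤ c * (minpoly (K p) w).natDegree :=
    Nat.mul_le_mul_left _ (Nat.sub_le _ _)
  have h3 : ((c * ((minpoly (K p) w).natDegree - i) : ℕ) : ℤ) ≤
      ((c * (minpoly (K p) w).natDegree : ℕ) : ℤ) := by exact_mod_cast h2
  push_cast at h3 ⊢
  linarith

end Pool.Agent.Q164.RCA.TaskMinInf
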