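import Pool.Agent.Q164.RCA.Stmts

open Polynomial

namespace Pool.Agent.Q164.RCA.TaskMinX

theorem main : Pool.Agent.Q164.RCA.TaskMinX := by
  intro p _ L _ _ z hz hf i
  obtain ⟨f, hf, hfz⟩ := hf
  letI : Algebra (ZMod p)[X] L :=
    ((algebraMap (K p) L).comp (algebraMap (ZMod p)[X] (K p))).toAlgebra
  have : IsScalarTower (ZMod p)[X] (K p) L := IsScalarTower.of_algebraMap_eq (fun x => rfl)
  have hzR : IsIntegral (ZMod p)[X] z := ⟨f, hf, hfz⟩
  have h := minpoly.isIntegrallyClosed_eq_field_fractions' (K p) hzR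
  refine ⟨(minpoly (ZMod p)[X] z).coeff i, ?_⟩
  rw [h, Polynomial.coeff_map]

end Pool.Agent.Q164.RCA.TaskMinX
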