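import Pool.Agent.Q164.RCA.Stmts

open Pool.Agent.Q164.RCA

namespace Pool.Agent.Q164.RCA.TaskMono

theorem main : Pool.Agent.Q164.RCA.TaskMono := by
  intro p _ W _ _ u lam w hu hlam P hP hw R β T N hβ hrel t ht h1t
  obtain ⟨n, hn⟩ := ht
  obtain ⟨q, rfl⟩ : ∃ q, P = q + 1 := ⟨P - 1, by omega⟩
  have hq : 0 < q := by omega
  simp only [Nat.add_sub_cancel] at hw ⊢
  have hw0 : w ≠ 0 := by
    rintro rfl
    rw [zero_pow (by omega)] at hw
    exact hu hw.symm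
  rcases Nat.eq_zero_or_pos R with hR | hR
  · subst hR
    rw [Finset.univ_eq_empty, Finset.sum_empty] at hn
    exact absurd hn (pow_ne_zero _ hlam)
  obtain ⟨i₀⟩ : Nonempty (Fin R) := ⟨⟨0, hR⟩⟩
  have hpow : ∀ j, β j ^ q * lam ^ T = u ^ (N j) := by
    intro j
    apply mul_left_cancel₀ (hβ j)
    rw [hrel j]
    ring
  have hwz : ∀ z : ℤ, (w ^ z) ^ q = u ^ z := by
    intro z
    rw [← hw, ← zpow_natCast (w ^ z) q, ← zpow_natCast w q, ← zpow_mul, ← zpow_mul, mul_comm]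
  have hζ : ∀ j, (β j * (β i₀)⁻¹ * w ^ ((N i₀ : ℤ) - N j)) ^ q = 1 := by
    intro j
    have h1 := hpow j
    have h2 := hpow i₀
    have hl : lam ^ T ≠ 0 := pow_ne_zero _ hlam
    have hb : β i₀ ^ q ≠ 0 := pow_ne_zero _ (hβ i₀)
    have huj : u ^ (N j) ≠ 0 := pow_ne_zero _ hu
    rw [mul_pow, mul_pow, hwz, inv_pow, zpow_sub₀ hu, zpow_natCast, zpow_natCast, ← h2]
    rw [← h1] at huj ⊢
    have hbj : β j ^ q ≠ 0 := left_ne_zero_of_mul huj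
    field_simp
  have hζc : ∀ j, β j * (β i₀)⁻¹ * w ^ ((N i₀ : ℤ) - N j) ∈ Cst p W := by
    intro j
    have : IsIntegral (ZMod p) (β j * (β i₀)⁻¹ * w ^ ((N i₀ : ℤ) - N j)) :=
      IsIntegral.of_pow hq (by rw [hζ j]; exact isIntegral_one)
    exact this
  have hwm : ∀ z : ℤ, w ^ z ∈ Algebra.adjoin (Cst p W) ({w, w⁻¹} : Set W) := by
    intro z
    obtain ⟨k, rfl | rfl⟩ := z.eq_nat_or_neg
    · rw [zpow_natCast]
      exact pow_mem (Algebra.subset_adjoin (by simp)) k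
    · rw [zpow_neg, zpow_natCast, ← inv_pow]
      exact pow_mem (Algebra.subset_adjoin (by simp)) k
  have hg : ∑ j, (β j * (β i₀)⁻¹ * w ^ ((N i₀ : ℤ) - N j)) * w ^ ((N j : ℤ) - N i₀ + q * n j) =
      lam ^ t * (β i₀)⁻¹ := by
    rw [hn, Finset.sum_mul]
    refine Finset.sum_congr rfl (fun j _ => ?_)
    rw [mul_assoc, ← zpow_add₀ hw0]
    have h1 : (N i₀ : ℤ) - N j + ((N j : ℤ) - N i₀ + q * n j) = q * n j := by ring
    rw [h1, zpow_mul, zpow_natCast, hw]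
    ring
  refine ⟨t * q + T, -(N i₀ : ℤ),
    ∑ j, (β j * (β i₀)⁻¹ * w ^ ((N i₀ : ℤ) - N j)) * w ^ ((N j : ℤ) - N i₀ + q * n j), ?_, ?_, ?_⟩
  · have := Nat.mul_pos (show 0 < t by omega) hq
    omega
  · refine Subalgebra.sum_mem _ (fun j _ => ?_)
    refine mul_mem ?_ (hwm _)
    exact (Algebra.adjoin (Cst p W) ({w, w⁻¹} : Set W)).algebraMap_mem ⟨_, hζc j⟩
  · rw [hg, mul_pow, inv_pow, zpow_neg, zpow_natCast, ← hpow i₀, pow_add, pow_mul]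
    have hl : lam ^ T ≠ 0 := pow_ne_zero _ hlam
    have hb : β i₀ ^ q ≠ 0 := pow_ne_zero _ (hβ i₀)
    field_simp

end Pool.Agent.Q164.RCA.TaskMono
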