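import Pool.Agent.Q164.RCA.Stmts

namespace Pool.Agent.Q164.RCA.TaskPig

open Pool.Agent.Q164.RCA

theorem main : Pool.Agent.Q164.RCA.TaskPig := by
  intro B _ _ f R hS
  classical
  by_contra hcon
  push Not at hcon
  apply hS
  have hfin : (⋃ x : (Σ r : Fin (R+1), (Fin (r : ℕ) → B)),
      {t : ℕ | ∃ m : Fin (x.1 : ℕ) → ℤ, f t = ∑ j, Finsupp.single (m j) (x.2 j)}).Finite := by
    apply Set.finite_iUnion
    intro x
    have := hcon x.1 x.2
    simpa using this
  refine hfin.subset ?_
  intro t ht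
  simp only [Set.mem_iUnion, Set.mem_setOf_eq] at ht ⊢
  let e : Fin (f t).support.card ≃ (f t).support := (f t).support.equivFin.symm
  refine ⟨⟨⟨(f t).support.card, by omega⟩, fun j => f t (e j)⟩, fun j => (e j : ℤ), ?_⟩
  have h1 : ∑ j, Finsupp.single ((e j : ℤ)) (f t (e j)) =
      ∑ k : (f t).support, Finsupp.single (k:ℤ) (f t k) :=
    Equiv.sum_comp e (fun k : (f t).support => Finsupp.single (k:ℤ) (f t k))
  have h2 : ∑ k : (f t).support, Finsupp.single (k:ℤ) (f t k) = f t := by
    rw [Finset.sum_coe_sort (f t).support (fun k => Finsupp.single k (f t k))]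
    exact Finsupp.sum_single (f t)
  exact (h1.trans h2).symm

end Pool.Agent.Q164.RCA.TaskPig
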