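import Pool.Agent.Q164.RCA.Stmts

set_option autoImplicit false

namespace Pool.Agent.Q164.RCA.TaskReduce

theorem main (hF : Pool.Agent.Q164.RCA.TaskFunc) (hO : Pool.Agent.Q164.RCA.TaskFuncOne) :
    Pool.Agent.Q164.RCA.TaskReduce := by
  intro p _ L _ _ u lam R z j₀ hz hinf
  obtain ⟨c, hc, hc1, hcz⟩ := hF p L (z j₀) hz
  obtain ⟨c', hc', hc1'⟩ := hO p L
  refine ⟨fun i => c' (z (j₀.succAbove i)) - c' (z j₀) * c (z (j₀.succAbove i)), hinf.mono ?_⟩
  rintro t ⟨n, hn⟩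
  refine ⟨fun i => n (j₀.succAbove i), ?_⟩
  have e1 : ∀ (f : L →+ L), (∀ a y : L, f (a ^ p * y) = a * f y) →
      lam ^ t * f 1 = ∑ j, u ^ (n j) * f (z j) := by
    intro f hf
    have h := congrArg f hn
    rw [map_sum] at h
    have h1 : f ((lam ^ t) ^ p) = lam ^ t * f 1 := by
      rw [← hf, mul_one]
    rw [h1] at h
    rw [h]
    refine Finset.sum_congr rfl fun j _ => ?_
    rw [mul_comm (z j), hf]
  have h1 := e1 c hc
  have h2 := e1 c' hc'
  rw [hc1, mul_zero, Fin.sum_univ_succAbove _ j₀, hcz, mul_one] at h1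
  rw [hc1', mul_one, Fin.sum_univ_succAbove _ j₀] at h2
  have h3 : u ^ (n j₀) = -∑ i, u ^ (n (j₀.succAbove i)) * c (z (j₀.succAbove i)) := by
    linear_combination -h1
  rw [h2, h3, neg_mul, Finset.sum_mul, neg_add_eq_sub, ← Finset.sum_sub_distrib]
  refine Finset.sum_congr rfl fun i _ => ?_
  ring

end Pool.Agent.Q164.RCA.TaskReduce
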