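import Pool.Agent.Q164.RCA.Stmts

/-! Proof of `TaskRep` (blueprint of helper164), by helper242. -/

open Polynomial

namespace Pool.Agent.Q164.RCA.TaskRep

open Pool.Agent.Q164.RCA

variable (p : ℕ) [Fact p.Prime]

lemma lau_zero : IsLau p (0 : K p) := ⟨0, 0, by simp⟩

lemma lau_add {a b : K p} (ha : IsLau p a) (hb : IsLau p b) : IsLau p (a + b) := by
  obtain ⟨N, f, hf⟩ := ha
  obtain ⟨M, g, hg⟩ := hb
  refine ⟨N + M, X ^ M * f + X ^ N * g, ?_⟩
  rw [map_add, map_mul, map_mul, ← hf, ← hg, map_pow, map_pow, RatFunc.algebraMap_X, pow_add]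
  ring

lemma lau_mono (m : ℤ) (a : ZMod p) :
    IsLau p ((RatFunc.X : K p) ^ m * algebraMap (ZMod p) (K p) a) := by
  have hX : (RatFunc.X : K p) ≠ 0 := RatFunc.X_ne_zero
  refine ⟨m.natAbs, X ^ ((m.natAbs : ℤ) + m).toNat * C a, ?_⟩
  rw [map_mul, map_pow, RatFunc.algebraMap_X, RatFunc.algebraMap_C, ← RatFunc.algebraMap_eq_C,
    ← mul_assoc]
  congr 1
  rw [← zpow_natCast (RatFunc.X : K p) m.natAbs, ← zpow_add₀ hX,
    ← zpow_natCast (RatFunc.X : K p) (((m.natAbs : ℤ) + m).toNat)]
  congr 1
  omega

lemma emb_zero (n : ℕ) : emb p (0 : ℤ →₀ (Fin n → ZMod p)) = 0 := by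
  funext i
  simp [emb]

theorem main (h : Pool.Agent.Q164.RCA.TaskEmbSh) : Pool.Agent.Q164.RCA.TaskRep := by
  intro p _ n Φ hΦ
  obtain ⟨hadd, hsh, hsing⟩ := h p n
  have hlau : ∀ (c : ℤ →₀ (Fin n → ZMod p)) (i : Fin n), IsLau p (emb p c i) := by
    intro c i
    induction c using Finsupp.induction_linear with
    | zero => rw [emb_zero]; exact lau_zero p
    | add f g hf hg => rw [hadd]; exact lau_add p hf hg
    | single m v =>
      rw [hsing]
      simp only [Pi.smul_apply, smul_eq_mul]
      exact lau_mono p m (v i)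
  set G : Matrix (Fin n) (Fin n) (K p) :=
    fun i j => emb p (Φ (Finsupp.single 0 (Pi.single j (1 : ZMod p)))) i with hG
  refine ⟨G, fun i j => hlau _ _, ?_⟩
  -- the two additive maps
  let A : (Fin n → ZMod p) →+ (Fin n → K p) :=
    { toFun := fun v => emb p (Φ (Finsupp.single 0 v))
      map_zero' := by simp only [Finsupp.single_zero, map_zero]; exact emb_zero p n
      map_add' := by intro v w; simp only [Finsupp.single_add, map_add]; exact hadd _ _ }
  let B : (Fin n → ZMod p) →+ (Fin n → K p) :=
    { toFun := fun v => G.mulVec (fun i => algebraMap (ZMod p) (K p) (v i))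
      map_zero' := by
        have : (fun i : Fin n => algebraMap (ZMod p) (K p) ((0 : Fin n → ZMod p) i)) = 0 := by
          funext i; simp
        rw [this, Matrix.mulVec_zero]
      map_add' := by
        intro v w
        rw [← Matrix.mulVec_add]
        congr 1
        funext i
        simp }
  have hone : ∀ j : Fin n, A (Pi.single j 1) = B (Pi.single j 1) := by
    intro j
    funext i
    change emb p (Φ (Finsupp.single 0 (Pi.single j (1 : ZMod p)))) i =
      G.mulVec (fun i => algebraMap (ZMod p) (K p) ((Pi.single j (1 : ZMod p) : Fin n → ZMod p) i)) i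
    have h1 : (fun i : Fin n => algebraMap (ZMod p) (K p)
        ((Pi.single j (1 : ZMod p) : Fin n → ZMod p) i)) = Pi.single j (1 : K p) := by
      funext k
      by_cases hk : k = j
      · subst hk; simp
      · simp [Pi.single_eq_of_ne hk]
    rw [h1, Matrix.mulVec_single_one]
    rfl
  have hAB : A = B := by
    apply AddMonoidHom.functions_ext
    intro j a
    have h1 : (Pi.single j a : Fin n → ZMod p) = a.val • (Pi.single j (1 : ZMod p) : Fin n → ZMod p) := by
      rw [← Pi.single_smul]
      congr 1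
      rw [nsmul_eq_mul, mul_one, ZMod.natCast_zmod_val]
    rw [h1, map_nsmul, map_nsmul, hone]
  intro c
  induction c using Finsupp.induction_linear with
  | zero => rw [map_zero, emb_zero, Matrix.mulVec_zero]
  | add f g hf hg => rw [map_add, hadd, hadd, hf, hg, Matrix.mulVec_add]
  | single m v =>
    have h1 : (Finsupp.single m v : ℤ →₀ (Fin n → ZMod p)) = sh m (Finsupp.single 0 v) := by
      simp [sh, Finsupp.mapDomain_single]
    have h2 : emb p (Φ (Finsupp.single 0 v)) =
        G.mulVec (fun i => algebraMap (ZMod p) (K p) (v i)) := by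
      have := DFunLike.congr_fun hAB v
      exact this
    rw [hsing]
    rw [h1, hΦ, hsh, h2, Matrix.mulVec_smul]

end Pool.Agent.Q164.RCA.TaskRep
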