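import Pool.Agent.Q164.RCA.Stmts

open Filter Topology MeasureTheory Polynomial

namespace Pool.Agent.Q164.RCA.TaskResid

theorem main : Pool.Agent.Q164.RCA.TaskResid := by
  intro p _ L _ _ u lam hu hlam R β hinf
  by_contra hcon
  apply hinf
  have hp : 0 < p := (Fact.out : p.Prime).pos
  have hpz : (0 : ℤ) < p := by exact_mod_cast hp
  let A : Fin p × (Fin R → Fin p) → Set ℕ := fun q =>
    {t | t % p = (q.1 : ℕ) ∧ ∃ n : Fin R → ℤ, lam ^ t = ∑ j, β j * u ^ (n j) ∧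
      ∀ j, (n j) % (p : ℤ) = ((q.2 j : ℕ) : ℤ)}
  have hsub : Sol u lam β ⊆ ⋃ q, A q := by
    rintro t ⟨n, hn⟩
    rw [Set.mem_iUnion]
    refine ⟨(⟨t % p, Nat.mod_lt _ hp⟩, fun j => ⟨((n j) % (p : ℤ)).toNat, ?_⟩), rfl, n, hn,
      fun j => ?_⟩
    · have h1 := Int.emod_lt_of_pos (n j) hpz
      have h0 := Int.emod_nonneg (n j) hpz.ne'
      omega
    · exact (Int.toNat_of_nonneg (Int.emod_nonneg _ hpz.ne')).symm
  refine Set.Finite.subset (Set.finite_iUnion fun q => ?_) hsub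
  have hfin : {t : ℕ | ∃ n : Fin R → ℤ, (lam ^ t) ^ p =
      ∑ j, (β j * u ^ ((q.2 j : ℕ)) * (lam ^ (q.1 : ℕ))⁻¹) * (u ^ (n j)) ^ p}.Finite := by
    by_contra h
    exact hcon ⟨q.1, fun j => q.2 j, q.1.2, fun j => (q.2 j).2, h⟩
  refine Set.Finite.of_finite_image (f := fun t => t / p) (hfin.subset ?_) ?_
  · rintro _ ⟨t, ⟨h1, n, hn, hm⟩, rfl⟩
    refine ⟨fun j => n j / p, ?_⟩
    have hlr : lam ^ (q.1 : ℕ) ≠ 0 := pow_ne_zero _ hlam
    have e1 : lam ^ t = (lam ^ (t / p)) ^ p * lam ^ (q.1 : ℕ) := by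
      rw [← pow_mul, ← pow_add, ← h1]
      congr 1
      rw [mul_comm]
      exact (Nat.div_add_mod t p).symm
    have e2 : ∀ j, u ^ (n j) = u ^ ((q.2 j : ℕ)) * (u ^ (n j / (p : ℤ))) ^ p := by
      intro j
      rw [← zpow_natCast (u ^ (n j / (p : ℤ))) p, ← zpow_mul, ← zpow_natCast u (q.2 j : ℕ),
        ← zpow_add₀ hu, ← hm j]
      congr 1
      rw [mul_comm]
      exact (Int.emod_add_mul_ediv (n j) p).symm
    have e3 : (lam ^ (t / p)) ^ p = (∑ j, β j * u ^ (n j)) * (lam ^ (q.1 : ℕ))⁻¹ := by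
      rw [← hn, e1, mul_assoc, mul_inv_cancel₀ hlr, mul_one]
    simp only
    rw [e3, Finset.sum_mul]
    refine Finset.sum_congr rfl fun j _ => ?_
    rw [e2 j]
    ring
  · rintro a ⟨ha, -⟩ b ⟨hb, -⟩ hab
    simp only at hab
    rw [← Nat.div_add_mod a p, ← Nat.div_add_mod b p, hab, ha, hb]

end Pool.Agent.Q164.RCA.TaskResid
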