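import Pool.Agent.Q164.RCA.Stmts

/-! `TaskRoot`: a nonzero element algebraic over `F_p` is a root of unity. -/

namespace Pool.Agent.Q164.RCA.TaskRoot

open Pool.Agent.Q164.RCA

theorem main : Pool.Agent.Q164.RCA.TaskRoot := by
  intro p _ W _ _ c hc hc0
  have hint : IsIntegral (ZMod p) c := hc
  have hfg := hint.fg_adjoin_singleton
  have hfin : Module.Finite (ZMod p) (Algebra.adjoin (ZMod p) ({c} : Set W)) :=
    Module.Finite.of_fg hfg
  have : Finite (Algebra.adjoin (ZMod p) ({c} : Set W)) := Module.finite_of_finite (ZMod p)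
  have hmem : ∀ n : ℕ, c ^ n ∈ Algebra.adjoin (ZMod p) ({c} : Set W) := fun n =>
    Subalgebra.pow_mem _ (Algebra.subset_adjoin (Set.mem_singleton c)) n
  obtain ⟨i, j, hij, he⟩ := Finite.exists_ne_map_eq_of_infinite
    (fun n : ℕ => (⟨c ^ n, hmem n⟩ : Algebra.adjoin (ZMod p) ({c} : Set W)))
  have he' : c ^ i = c ^ j := congrArg Subtype.val he
  have key : ∀ i j : ℕ, i < j → c ^ i = c ^ j → ∃ e : ℕ, 1 ≤ e ∧ c ^ e = 1 := by
    intro i j hij h
    refine ⟨j - i, by omega, ?_⟩
    have h1 : c ^ i * c ^ (j - i) = c ^ i * 1 := by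
      rw [← pow_add, Nat.add_sub_cancel' hij.le, mul_one, h]
    exact mul_left_cancel₀ (pow_ne_zero i hc0) h1
  rcases lt_or_gt_of_ne hij with h | h
  · exact key i j h he'
  · exact key j i h he'.symm

end Pool.Agent.Q164.RCA.TaskRoot
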