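import Pool.Agent.Q164.RCA.Stmts

/-!
# Weak convergence from the convergence of the Fourier coefficients (Stone–Weierstrass)
-/

open Filter Topology MeasureTheory

namespace Pool.Agent.Q164.RCA.TaskStone

open Pool.Agent.Q164.RCA

section
variable {A : Type} [AddCommGroup A] [Fintype A]

theorem ev_eq (c : ℤ →₀ AddChar A ℂ) (x : ℤ → A) :
    ev c x = c.prod fun k χ => χ (x k) := rfl

theorem ev_zero (x : ℤ → A) : ev (0 : ℤ →₀ AddChar A ℂ) x = 1 := by
  rw [ev_eq, Finsupp.prod_zero_index]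

theorem ev_add (c c' : ℤ →₀ AddChar A ℂ) (x : ℤ → A) : ev (c + c') x = ev c x * ev c' x := by
  rw [ev_eq, ev_eq, ev_eq]
  exact Finsupp.prod_add_index' (fun k => AddChar.zero_apply _) fun k a b => AddChar.add_apply _ _ _

theorem ev_single (k : ℤ) (χ : AddChar A ℂ) (x : ℤ → A) :
    ev (Finsupp.single k χ) x = χ (x k) := by
  rw [ev_eq]
  exact Finsupp.prod_single_index (AddChar.zero_apply _)

theorem ev_neg (c : ℤ →₀ AddChar A ℂ) (x : ℤ → A) : ev (-c) x = star (ev c x) := by
  unfold ev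
  rw [Finsupp.support_neg, star_prod]
  refine Finset.prod_congr rfl fun k _ => ?_
  rw [Finsupp.neg_apply, AddChar.neg_apply, AddChar.map_neg_eq_conj]
  rfl

variable [TopologicalSpace A] [DiscreteTopology A]

theorem ev_cont (c : ℤ →₀ AddChar A ℂ) : Continuous (ev c) := by
  unfold ev
  refine continuous_finsetProd _ fun k _ => ?_
  exact (continuous_of_discreteTopology (f := fun a : A => c k a)).comp (continuous_apply k)

/-- `ev` as a continuous map -/
noncomputable def evC (c : ℤ →₀ AddChar A ℂ) : C(ℤ → A, ℂ) := ⟨ev c, ev_cont c⟩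

/-- the algebra generated by the `ev c` -/
noncomputable def sub (A : Type) [AddCommGroup A] [Fintype A] [TopologicalSpace A] [DiscreteTopology A] :
    StarSubalgebra ℂ C(ℤ → A, ℂ) where
  toSubalgebra := Algebra.adjoin ℂ (Set.range (evC (A := A)))
  star_mem' := by
    change Algebra.adjoin ℂ (Set.range (evC (A := A))) ≤
      star (Algebra.adjoin ℂ (Set.range (evC (A := A))))
    refine Algebra.adjoin_le ?_
    rintro - ⟨c, rfl⟩
    exact Algebra.subset_adjoin ⟨-c, ContinuousMap.ext fun x => ev_neg c x⟩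

theorem sub_coe : Subalgebra.toSubmodule (sub A).toSubalgebra =
    Submodule.span ℂ (Set.range (evC (A := A))) := by
  apply Algebra.adjoin_eq_span_of_subset
  refine Set.Subset.trans ?_ Submodule.subset_span
  intro f hf
  refine Submonoid.closure_induction (fun _ => id) ⟨0, ?_⟩ ?_ hf
  · ext1 x; exact ev_zero x
  · rintro - - - - ⟨m, rfl⟩ ⟨n, rfl⟩
    refine ⟨m + n, ?_⟩
    ext1 x
    exact ev_add m n x

theorem sub_sep : (sub A).SeparatesPoints := by
  intro x y hxy
  obtain ⟨k, hk⟩ := Function.ne_iff.1 hxy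
  obtain ⟨ψ, hψ⟩ := AddChar.exists_apply_ne_zero.2 (sub_ne_zero.2 hk)
  refine ⟨_, ⟨evC (Finsupp.single k ψ), Algebra.subset_adjoin ⟨_, rfl⟩, rfl⟩, ?_⟩
  change ev (Finsupp.single k ψ) x ≠ ev (Finsupp.single k ψ) y
  rw [ev_single, ev_single]
  intro h
  apply hψ
  rw [sub_eq_add_neg, AddChar.map_add_eq_mul, h, ← AddChar.map_add_eq_mul, add_neg_cancel,
    AddChar.map_zero_eq_one]

theorem span_dense : (Submodule.span ℂ (Set.range (evC (A := A)))).topologicalClosure = ⊤ := by
  rw [← sub_coe]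
  exact congr_arg (Subalgebra.toSubmodule <| StarSubalgebra.toSubalgebra ·)
    (ContinuousMap.starSubalgebra_topologicalClosure_eq_top_of_separatesPoints (sub A) sub_sep)

end

theorem main : TaskStone := by
  intro A _ _ _ _ _ _ ν ν₀ hν hν₀ hc f
  have hint : ∀ (g : C(ℤ → A, ℂ)) (μ : Measure (ℤ → A)), IsProbabilityMeasure μ →
      Integrable (fun x => g x) μ := by
    intro g μ hμ
    exact Integrable.of_bound (C := ‖g‖) g.continuous.aestronglyMeasurable
      (Eventually.of_forall fun x => g.norm_coe_le_norm x)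
  -- the set of good functions
  have hspan : ∀ g ∈ Submodule.span ℂ (Set.range (evC (A := A))),
      Tendsto (fun t => ∫ x, g x ∂(ν t)) atTop (𝓝 (∫ x, g x ∂ν₀)) := by
    intro g hg
    induction hg using Submodule.span_induction with
    | mem g hg =>
      obtain ⟨c, rfl⟩ := hg
      exact hc c
    | zero => simp
    | add g g' _ _ h h' =>
      have h1 : ∀ μ : Measure (ℤ → A), IsProbabilityMeasure μ →
          ∫ x, (g + g') x ∂μ = ∫ x, g x ∂μ + ∫ x, g' x ∂μ := fun μ hμ =>
        integral_add (hint g μ hμ) (hint g' μ hμ)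
      rw [h1 _ hν₀]
      refine (h.add h').congr fun t => (h1 _ (hν t)).symm
    | smul a g _ h =>
      have h1 : ∀ μ : Measure (ℤ → A), ∫ x, (a • g) x ∂μ = a * ∫ x, g x ∂μ := fun μ =>
        integral_const_mul a _
      rw [h1]
      refine (h.const_mul a).congr fun t => (h1 _).symm
  have hall : ∀ g : C(ℤ → A, ℂ),
      Tendsto (fun t => ∫ x, g x ∂(ν t)) atTop (𝓝 (∫ x, g x ∂ν₀)) := by
    intro g
    have hg : g ∈ (Submodule.span ℂ (Set.range (evC (A := A)))).topologicalClosure := by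
      rw [span_dense]; trivial
    have hg' : g ∈ closure ((Submodule.span ℂ (Set.range (evC (A := A))) :
        Submodule ℂ C(ℤ → A, ℂ)) : Set C(ℤ → A, ℂ)) := hg
    rw [Metric.tendsto_atTop]
    intro ε hε
    obtain ⟨g', hg1, hg2⟩ := Metric.mem_closure_iff.1 hg' (ε / 3) (by positivity)
    obtain ⟨N, hN⟩ := Metric.tendsto_atTop.1 (hspan g' hg1) (ε / 3) (by positivity)
    have hd : ∀ μ : Measure (ℤ → A), IsProbabilityMeasure μ →
        dist (∫ x, g x ∂μ) (∫ x, g' x ∂μ) ≤ dist g g' := by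
      intro μ hμ
      rw [dist_eq_norm, ← integral_sub (hint g μ hμ) (hint g' μ hμ)]
      refine (norm_integral_le_of_norm_le_const (C := dist g g')
        (Eventually.of_forall fun x => ?_)).trans ?_
      · rw [← dist_eq_norm]
        exact ContinuousMap.dist_apply_le_dist x
      · simp
    refine ⟨N, fun t ht => ?_⟩
    have h1 := hd _ (hν t)
    have h2 := hd _ hν₀
    have h3 := hN t ht
    calc dist (∫ x, g x ∂(ν t)) (∫ x, g x ∂ν₀)
        ≤ dist (∫ x, g x ∂(ν t)) (∫ x, g' x ∂(ν t)) + dist (∫ x, g' x ∂(ν t)) (∫ x, g' x ∂ν₀)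
          + dist (∫ x, g' x ∂ν₀) (∫ x, g x ∂ν₀) := dist_triangle4 _ _ _ _
      _ < ε / 3 + ε / 3 + ε / 3 := by
          rw [dist_comm (∫ x, g' x ∂ν₀)]
          linarith
      _ = ε := by ring
  have hf := hall ⟨fun x => (f x : ℂ), by fun_prop⟩
  have he : ∀ μ : Measure (ℤ → A), ∫ x, ((f x : ℝ) : ℂ) ∂μ = ((∫ x, f x ∂μ : ℝ) : ℂ) :=
    fun μ => integral_ofReal
  have hf' : Tendsto (fun t => ((∫ x, f x ∂(ν t) : ℝ) : ℂ)) atTop (𝓝 ((∫ x, f x ∂ν₀ : ℝ) : ℂ)) := by
    rw [← he]
    exact hf.congr fun t => he _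
  have := (Complex.continuous_re.tendsto _).comp hf'
  simpa [Function.comp_def] using this

end Pool.Agent.Q164.RCA.TaskStone
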