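import Pool.Agent.Q164.RCA.Stmts

/-! `TaskUnit`: a Laurent polynomial with an inverse which is integral is a monomial. -/

open Polynomial

namespace Pool.Agent.Q164.RCA.TaskUnit

open Pool.Agent.Q164.RCA

theorem lau {W : Type} [Field W] (k : Type) [CommRing k] [Algebra k W] (w : W) (hw : w ≠ 0) (x : W)
    (hx : x ∈ Algebra.adjoin k ({w, w⁻¹} : Set W)) :
    ∃ (a : ℕ) (f : k[X]), x * w ^ a = aeval w f := by
  induction hx using Algebra.adjoin_induction with
  | mem x hx =>
    rcases hx with rfl | hx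
    · exact ⟨0, X, by simp⟩
    · rw [Set.mem_singleton_iff] at hx
      refine ⟨1, 1, ?_⟩
      rw [hx]
      simp [hw]
  | algebraMap c => exact ⟨0, C c, by simp⟩
  | add x y _ _ hx hy =>
    obtain ⟨a, f, hf⟩ := hx
    obtain ⟨b, g, hg⟩ := hy
    refine ⟨a + b, X ^ b * f + X ^ a * g, ?_⟩
    rw [map_add, map_mul, map_mul, map_pow, map_pow, aeval_X, ← hf, ← hg]
    ring
  | mul x y _ _ hx hy =>
    obtain ⟨a, f, hf⟩ := hx
    obtain ⟨b, g, hg⟩ := hy
    refine ⟨a + b, f * g, ?_⟩
    rw [map_mul, ← hf, ← hg]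
    ring

theorem inv_mem {W : Type} [Field W] {k : Type} [CommRing k] [Algebra k W] (A : Subalgebra k W)
    (g h : W) (hg : g ∈ A) (hgh : g * h = 1) (hh : IsIntegral A h) : h ∈ A := by
  obtain ⟨P, hP, he⟩ := hh
  have hn : P.natDegree ≠ 0 := by
    intro h0
    rw [hP.natDegree_eq_zero.1 h0] at he
    simp at he
  obtain ⟨n, hn'⟩ := Nat.exists_eq_succ_of_ne_zero hn
  rw [Polynomial.eval₂_eq_sum_range, hn', Finset.sum_range_succ] at he
  have hc : P.coeff (n + 1) = 1 := by
    have := hP.coeff_natDegree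
    rwa [hn'] at this
  rw [hc, map_one, one_mul] at he
  have e : h = -∑ i ∈ Finset.range (n + 1), (algebraMap A W (P.coeff i)) * g ^ (n - i) := by
    have h1 : g ^ n * h ^ (n + 1) = h := by
      rw [pow_succ, ← mul_assoc, ← mul_pow, hgh, one_pow, one_mul]
    have h2 : g ^ n * ∑ i ∈ Finset.range (n + 1), (algebraMap A W (P.coeff i)) * h ^ i =
        ∑ i ∈ Finset.range (n + 1), (algebraMap A W (P.coeff i)) * g ^ (n - i) := by
      rw [Finset.mul_sum]
      refine Finset.sum_congr rfl fun i hi => ?_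
      have hi' : i ≤ n := Nat.lt_succ_iff.1 (Finset.mem_range.1 hi)
      have h3 : g ^ n = g ^ (n - i) * g ^ i := by
        rw [← pow_add]
        congr 1
        omega
      have h4 : g ^ i * h ^ i = 1 := by rw [← mul_pow, hgh, one_pow]
      rw [h3]
      linear_combination (algebraMap A W (P.coeff i)) * g ^ (n - i) * h4
    have h5 : g ^ n * ((∑ i ∈ Finset.range (n + 1), (algebraMap A W (P.coeff i)) * h ^ i) +
        h ^ (n + 1)) = 0 := by
      rw [he, mul_zero]
    rw [mul_add, h1, h2] at h5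
    linear_combination h5
  rw [e]
  refine neg_mem (sum_mem fun i _ => mul_mem (P.coeff i).2 (pow_mem hg _))

theorem main : Pool.Agent.Q164.RCA.TaskUnit := by
  intro p _ W _ _ _ w hw g h hg hgh hh
  have hw0 : w ≠ 0 := by
    rintro rfl
    exact hw isAlgebraic_zero
  have hmem := inv_mem _ g h hg hgh hh
  obtain ⟨a, f, hf⟩ := lau (Cst p W) w hw0 g hg
  obtain ⟨b, q, hq⟩ := lau (Cst p W) w hw0 h hmem
  have htr : Transcendental (Cst p W) w := by
    intro halg
    apply hw
    haveI : Algebra.IsIntegral (ZMod p) (Cst p W) := by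
      unfold Cst
      infer_instance
    exact halg.restrictScalars (ZMod p)
  have hfq : f * q = X ^ (a + b) := by
    have h1 : aeval w (f * q) = aeval w (X ^ (a + b) : (Cst p W)[X]) := by
      rw [map_mul, ← hf, ← hq, map_pow, aeval_X]
      rw [pow_add]
      linear_combination w ^ a * w ^ b * hgh
    exact (transcendental_iff_injective.1 htr) h1
  have hdvd : f ∣ X ^ (a + b) := ⟨q, hfq.symm⟩
  obtain ⟨i, _, hi⟩ := (dvd_prime_pow Polynomial.prime_X _).1 hdvd
  obtain ⟨u, hu⟩ := hi.symm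
  obtain ⟨c, hc, hcu⟩ := Polynomial.isUnit_iff.1 u.isUnit
  refine ⟨(c : W), (i : ℤ) - a, c.2, ?_, ?_⟩
  · intro h0
    have : c = 0 := Subtype.ext h0
    rw [this] at hc
    exact not_isUnit_zero hc
  · rw [zpow_sub₀ hw0, zpow_natCast, zpow_natCast, ← mul_div_assoc, eq_div_iff (pow_ne_zero _ hw0),
      hf, ← hu, ← hcu, map_mul, map_pow, aeval_X, aeval_C, mul_comm]
    rfl

end Pool.Agent.Q164.RCA.TaskUnit
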