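import Pool.Agent.Q164.RCA.Stmts

open Filter Topology MeasureTheory Polynomial

namespace Pool.Agent.Q164.RCA.TaskVec

open Pool.Agent.Q164.RCA

theorem emb_zero (p : ℕ) [Fact p.Prime] {n : ℕ} : emb p (0 : ℤ →₀ (Fin n → ZMod p)) = 0 := by
  funext i
  simp [emb]

theorem main (hM : TaskMatMain) (hInj : TaskEmbInj) (hSurj : TaskEmbSurj) (hSh : TaskEmbSh)
    (hRep : TaskRep) (hPig : TaskPig) : Pool.Agent.Q164.RCA.TaskVec := by
  intro p _ n Φ hΦ c hc R hR
  obtain ⟨hadd, hsh, hsingle⟩ := hSh p n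
  obtain ⟨G, hG, hGe⟩ := hRep p n Φ.toAddMonoidHom (fun m c => hΦ m c)
  have hΦs : ∀ m c, Φ.symm (sh m c) = sh m (Φ.symm c) := by
    intro m c
    apply Φ.injective
    rw [hΦ m (Φ.symm c), Φ.apply_symm_apply, Φ.apply_symm_apply]
  obtain ⟨H, hH, hHe⟩ := hRep p n Φ.symm.toAddMonoidHom (fun m c => hΦs m c)
  have hGe' : ∀ c, emb p (Φ c) = G.mulVec (emb p c) := hGe
  have hHe' : ∀ c, emb p (Φ.symm c) = H.mulVec (emb p c) := hHe
  have hGH0 : ∀ c, (G * H).mulVec (emb p c) = emb p c := by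
    intro c
    rw [← Matrix.mulVec_mulVec, ← hHe', ← hGe', Φ.apply_symm_apply]
  have hGH : G * H = 1 := by
    ext i j
    have h1 := hGH0 (Finsupp.single 0 (Pi.single j 1))
    have h2 : emb p (Finsupp.single 0 (Pi.single j 1 : Fin n → ZMod p)) = Pi.single j 1 := by
      rw [hsingle 0 (Pi.single j 1), zpow_zero, one_smul]
      funext i
      by_cases h : i = j
      · subst h; simp
      · simp [Pi.single_eq_of_ne h]
    rw [h2] at h1
    have h3 := congrFun h1 i
    rw [Matrix.mulVec_single_one] at h3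
    rw [Matrix.one_apply]
    rw [show (G * H) i j = (G * H).col j i from rfl, h3, Pi.single_apply]
  have hiter : ∀ t : ℕ, emb p (Φ^[t] c) = (G ^ t).mulVec (emb p c) := by
    intro t
    induction t with
    | zero => simp
    | succ t ih => rw [Function.iterate_succ_apply', hGe', ih, Matrix.mulVec_mulVec, ← pow_succ']
  have hiter2 : ∀ (y : ℤ →₀ (Fin n → ZMod p)) (t : ℕ), emb p (Φ^[t] y) = (G ^ t).mulVec (emb p y) := by
    intro y t
    induction t with
    | zero => simp
    | succ t ih => rw [Function.iterate_succ_apply', hGe', ih, Matrix.mulVec_mulVec, ← pow_succ']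
  have hfin : Finite (Fin n → ZMod p) := by
    have : NeZero p := ⟨(Fact.out : p.Prime).ne_zero⟩
    infer_instance
  obtain ⟨R', a, ha⟩ := hPig (Fin n → ZMod p) (fun t => Φ^[t] c) R hR
  have hsum : ∀ (m : Fin R' → ℤ) (s : Finset (Fin R')),
      emb p (∑ j ∈ s, Finsupp.single (m j) (a j)) =
        ∑ j ∈ s, (RatFunc.X : K p) ^ (m j) • (fun i => algebraMap (ZMod p) (K p) (a j i)) := by
    intro m s
    classical
    induction s using Finset.induction_on with
    | empty => simp [emb_zero]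
    | insert j s hj ih => rw [Finset.sum_insert hj, Finset.sum_insert hj, hadd, ih, hsingle]
  have hinf : {t : ℕ | ∃ m : Fin R' → ℤ, (G ^ t).mulVec (emb p c) =
      ∑ j, (RatFunc.X : K p) ^ (m j) • (fun i => algebraMap (ZMod p) (K p) (a j i))}.Infinite := by
    refine ha.mono ?_
    rintro t ⟨m, hm⟩
    refine ⟨m, ?_⟩
    rw [← hiter t, ← hsum m Finset.univ]
    exact congrArg (emb p) hm
  have hx : emb p c ≠ 0 := fun h => hc (hInj p n c h)
  obtain ⟨y', hy0, hyL, s, m, hs, hsm⟩ := hM p n G H hGH hH (emb p c) hx R' _ hinf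
  obtain ⟨y, hy⟩ := hSurj p n y' hyL
  refine ⟨y, s, m, ?_, hs, ?_⟩
  · intro h
    apply hy0
    rw [← hy, h, emb_zero]
  · have h1 : emb p (Φ^[s] y) = emb p (sh m y) := by
      rw [hiter2, hsh, hy, hsm]
    have h2 : emb p (Φ^[s] y - sh m y) = 0 := by
      have h3 := hadd (Φ^[s] y - sh m y) (sh m y)
      rw [sub_add_cancel, h1] at h3
      have h4 : (0 : Fin n → K p) + emb p (sh m y) = emb p (Φ^[s] y - sh m y) + emb p (sh m y) := by
        rw [zero_add]; exact h3
      exact (add_right_cancel h4).symm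
    exact sub_eq_zero.mp (hInj p n _ h2)

end Pool.Agent.Q164.RCA.TaskVec
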